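import Mathlib

/-! Project OC (MP_3d0876_an), base: translations and convolution operators on `ℓ^p(G)`. -/

set_option linter.unusedSectionVars false

namespace Pool.Agent.Helper951_oc

open scoped ENNReal

/-- `ℓ¹(G)` -/
noncomputable abbrev L1 (G : Type*) := lp (fun _ : G => ℂ) 1
/-- `ℓ²(G)` -/
noncomputable abbrev L2 (G : Type*) := lp (fun _ : G => ℂ) 2

section trans

variable {G : Type*} {p : ℝ≥0∞}

theorem memℓp_comp (hp : 0 < p.toReal) (e : G ≃ G) {f : G → ℂ} (hf : Memℓp f p) :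
    Memℓp (fun x => f (e x)) p := by
  rw [memℓp_gen_iff hp] at hf ⊢
  exact (e.summable_iff (f := fun x => ‖f x‖ ^ p.toReal)).2 hf

/-- Composition with a permutation of `G`, as a linear map of `ℓ^p(G)`. -/
noncomputable def transL (p : ℝ≥0∞) (hp : 0 < p.toReal) (e : G ≃ G) :
    lp (fun _ : G => ℂ) p →ₗ[ℂ] lp (fun _ : G => ℂ) p where
  toFun f := ⟨fun x => (f : G → ℂ) (e x), memℓp_comp hp e f.2⟩
  map_add' f g := by ext x; rfl
  map_smul' c f := by ext x; rfl

theorem norm_transL (hp : 0 < p.toReal) (e : G ≃ G) (f : lp (fun _ : G => ℂ) p) :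
    ‖transL p hp e f‖ = ‖f‖ := by
  rw [lp.norm_eq_tsum_rpow hp, lp.norm_eq_tsum_rpow hp]
  congr 1
  exact e.tsum_eq (fun x => ‖(f : G → ℂ) x‖ ^ p.toReal)

variable [Fact (1 ≤ p)]

/-- Composition with a permutation of `G`, as a bounded operator of `ℓ^p(G)`. -/
noncomputable def trans (p : ℝ≥0∞) [Fact (1 ≤ p)] (hp : 0 < p.toReal) (e : G ≃ G) :
    lp (fun _ : G => ℂ) p →L[ℂ] lp (fun _ : G => ℂ) p :=
  (transL p hp e).mkContinuous 1 (fun f => by rw [norm_transL, one_mul])

theorem trans_apply (hp : 0 < p.toReal) (e : G ≃ G) (f : lp (fun _ : G => ℂ) p) (x : G) :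
    (trans p hp e f : G → ℂ) x = (f : G → ℂ) (e x) := rfl

theorem norm_trans_apply (hp : 0 < p.toReal) (e : G ≃ G) (f : lp (fun _ : G => ℂ) p) :
    ‖trans p hp e f‖ = ‖f‖ := norm_transL hp e f

theorem norm_trans_le (hp : 0 < p.toReal) (e : G ≃ G) : ‖trans p hp e‖ ≤ 1 :=
  LinearMap.mkContinuous_norm_le _ zero_le_one _

end trans

section cop

variable {G : Type*} [Group G] {p : ℝ≥0∞} [Fact (1 ≤ p)]

theorem summable_norm_l1 (a : L1 G) : Summable fun g => ‖(a : G → ℂ) g‖ := by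
  have h := (memℓp_gen_iff (p := 1) (by simp)).1 a.2
  simpa using h

theorem norm_l1 (a : L1 G) : ‖a‖ = ∑' g, ‖(a : G → ℂ) g‖ := by
  rw [lp.norm_eq_tsum_rpow (by simp : 0 < (1 : ℝ≥0∞).toReal)]
  simp

theorem summable_cop (hp : 0 < p.toReal) (a : L1 G) :
    Summable fun g => (a : G → ℂ) g • trans p hp (Equiv.mulLeft g⁻¹) := by
  refine Summable.of_norm_bounded (summable_norm_l1 a) (fun g => ?_)
  rw [norm_smul]
  exact mul_le_of_le_one_right (norm_nonneg _) (norm_trans_le hp _)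

/-- The convolution operator of `a ∈ ℓ¹(G)` on `ℓ^p(G)`. -/
noncomputable def cop (p : ℝ≥0∞) [Fact (1 ≤ p)] (hp : 0 < p.toReal) (a : L1 G) :
    lp (fun _ : G => ℂ) p →L[ℂ] lp (fun _ : G => ℂ) p :=
  ∑' g, (a : G → ℂ) g • trans p hp (Equiv.mulLeft g⁻¹)

theorem norm_cop_le (hp : 0 < p.toReal) (a : L1 G) : ‖cop p hp a‖ ≤ ‖a‖ := by
  rw [norm_l1, cop]
  refine tsum_of_norm_bounded (summable_norm_l1 a).hasSum (fun g => ?_)
  rw [norm_smul]
  exact mul_le_of_le_one_right (norm_nonneg _) (norm_trans_le hp _)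

theorem hasSum_cop_apply (hp : 0 < p.toReal) (a : L1 G) (f : lp (fun _ : G => ℂ) p) :
    HasSum (fun g => (a : G → ℂ) g • trans p hp (Equiv.mulLeft g⁻¹) f) (cop p hp a f) := by
  exact (summable_cop hp a).hasSum.mapL (ContinuousLinearMap.apply ℂ (lp (fun _ : G => ℂ) p) f)

theorem hasSum_cop_coe (hp : 0 < p.toReal) (a : L1 G) (f : lp (fun _ : G => ℂ) p) (x : G) :
    HasSum (fun g => (a : G → ℂ) g * (f : G → ℂ) (g⁻¹ * x)) ((cop p hp a f : G → ℂ) x) := by
  have := (hasSum_cop_apply hp a f).mapL (lp.evalCLM ℂ (fun _ : G => ℂ) p x)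
  exact this

theorem cop_coe (hp : 0 < p.toReal) (a : L1 G) (f : lp (fun _ : G => ℂ) p) (x : G) :
    (cop p hp a f : G → ℂ) x = ∑' g, (a : G → ℂ) g * (f : G → ℂ) (g⁻¹ * x) :=
  (hasSum_cop_coe hp a f x).tsum_eq.symm

theorem cop_add (hp : 0 < p.toReal) (a b : L1 G) : cop p hp (a + b) = cop p hp a + cop p hp b := by
  rw [cop, cop, cop, ← (summable_cop hp a).tsum_add (summable_cop hp b)]
  refine tsum_congr (fun g => ?_)
  rw [← add_smul]; rfl

theorem cop_smul (hp : 0 < p.toReal) (c : ℂ) (a : L1 G) : cop p hp (c • a) = c • cop p hp a := by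
  rw [cop, cop, ← tsum_const_smul'']
  refine tsum_congr (fun g => ?_)
  rw [smul_smul]; rfl

/-- `cop` as a bounded linear map. -/
noncomputable def copL (p : ℝ≥0∞) [Fact (1 ≤ p)] (hp : 0 < p.toReal) :
    L1 G →L[ℂ] (lp (fun _ : G => ℂ) p →L[ℂ] lp (fun _ : G => ℂ) p) :=
  LinearMap.mkContinuous
    { toFun := cop p hp, map_add' := cop_add hp, map_smul' := cop_smul hp } 1
    (fun a => by rw [one_mul]; exact norm_cop_le hp a)

theorem copL_apply (hp : 0 < p.toReal) (a : L1 G) : copL p hp a = cop p hp a := rfl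

/-- The unit mass at `g`, in `ℓ^p`. -/
noncomputable def sgl (p : ℝ≥0∞) (g : G) : lp (fun _ : G => ℂ) p := by
  classical exact lp.single p g 1

open Classical in
theorem sgl_apply (g x : G) : (sgl p g : G → ℂ) x = if x = g then 1 else 0 := by
  unfold sgl
  by_cases h : x = g
  · subst h; rw [if_pos rfl]; exact lp.single_apply_self (E := fun _ : G => ℂ) p x 1
  · rw [if_neg h]; exact lp.single_apply_ne (E := fun _ : G => ℂ) p g 1 h

theorem cop_sgl (hp : 0 < p.toReal) (g : G) :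
    cop p hp (sgl 1 g) = trans p hp (Equiv.mulLeft g⁻¹) := by
  classical
  rw [cop, tsum_eq_single g]
  · rw [sgl_apply, if_pos rfl, one_smul]
  · intro b hb
    rw [sgl_apply, if_neg hb, zero_smul]

theorem trans_sgl (hp : 0 < p.toReal) (g h : G) :
    trans p hp (Equiv.mulLeft g⁻¹) (sgl p h) = sgl p (g * h) := by
  classical
  ext x
  rw [trans_apply, sgl_apply, sgl_apply]
  simp only [Equiv.coe_mulLeft, inv_mul_eq_iff_eq_mul]

theorem ext_sgl (hp : p ≠ ⊤) {F : Type*} [NormedAddCommGroup F] [NormedSpace ℂ F]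
    {S T : lp (fun _ : G => ℂ) p →L[ℂ] F} (h : ∀ g, S (sgl p g) = T (sgl p g)) : S = T := by
  classical
  refine lp.ext_continuousLinearMap hp (fun g => ?_)
  ext
  have := h g
  unfold sgl at this
  rw [ContinuousLinearMap.comp_apply, ContinuousLinearMap.comp_apply,
    lp.singleContinuousLinearMap_apply]
  convert this using 2

/-- Multiplicativity of `cop`. -/
theorem cop_cop (hp : 0 < p.toReal) (a b : L1 G) :
    cop p hp (cop 1 (by simp) a b) = cop p hp a * cop p hp b := by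
  -- both sides are bounded linear in `b`, then in `a`; check unit masses
  have key : ∀ g h : G, cop p hp (cop 1 (by simp) (sgl 1 g) (sgl 1 h))
      = cop p hp (sgl 1 g) * cop p hp (sgl 1 h) := by
    intro g h
    rw [cop_sgl, trans_sgl, cop_sgl, cop_sgl, cop_sgl]
    ext f x
    simp [trans_apply]
  have h1 : ∀ g : G, ∀ b : L1 G, cop p hp (cop 1 (by simp) (sgl 1 g) b)
      = cop p hp (sgl 1 g) * cop p hp b := by
    intro g b
    have : (copL p hp).comp (cop 1 (by simp) (sgl 1 g))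
        = (ContinuousLinearMap.mul ℂ (lp (fun _ : G => ℂ) p →L[ℂ] lp (fun _ : G => ℂ) p)
            (cop p hp (sgl 1 g))).comp (copL p hp) := by
      refine ext_sgl (by simp) (fun h => ?_)
      exact key g h
    exact congrArg (fun T => T b) this
  have : (copL p hp).comp (((copL 1 (by simp)).flip b))
      = (((ContinuousLinearMap.mul ℂ (lp (fun _ : G => ℂ) p →L[ℂ] lp (fun _ : G => ℂ) p)).flip
            (cop p hp b))).comp (copL p hp) := by
    refine ext_sgl (by simp) (fun g => ?_)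
    exact h1 g b
  exact congrArg (fun T => T a) this

end cop

end Pool.Agent.Helper951_oc
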