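import Pool.Agent.Helper951_oc.RL

/-! Project OC (MP_3d0876_an), part CORE. -/

namespace Pool.Agent.Helper951_oc

open scoped InnerProductSpace

variable {H : Type*} [NormedAddCommGroup H] [InnerProductSpace ℂ H] [CompleteSpace H]

private theorem sa (X : H →L[ℂ] H) (hX : star X = X) (a b : H) :
    ⟪X a, b⟫_ℂ = ⟪a, X b⟫_ℂ := by
  conv_lhs => rw [← hX, ContinuousLinearMap.star_eq_adjoint]
  exact ContinuousLinearMap.adjoint_inner_left X b a

private theorem proj_nsq (q : H →L[ℂ] H) (hq : q * q = q) (hqs : star q = q) (δ : H) :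
    ‖q δ‖ ^ 2 = RCLike.re ⟪δ, q δ⟫_ℂ := by
  have h1 : ⟪q δ, q δ⟫_ℂ = ⟪δ, q δ⟫_ℂ := by
    rw [sa q hqs]
    have : q (q δ) = (q * q) δ := rfl
    rw [this, hq]
  rw [← h1]
  exact (inner_self_eq_norm_sq (𝕜 := ℂ) (q δ)).symm

private theorem proj_le (q : H →L[ℂ] H) (hq : q * q = q) (hqs : star q = q) (δ : H) :
    ‖q δ‖ ≤ ‖δ‖ := by
  have h1 := proj_nsq q hq hqs δ
  have h2 : RCLike.re ⟪δ, q δ⟫_ℂ ≤ ‖δ‖ * ‖q δ‖ := (RCLike.re_le_norm _).trans (norm_inner_le_norm _ _)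
  by_contra hcon
  push Not at hcon
  have h3 : 0 ≤ ‖δ‖ := norm_nonneg _
  nlinarith

omit [CompleteSpace H] in
/-- commutation of the inverse -/
private theorem inv_comm (K E F : H →L[ℂ] H) (h1 : K * E = 1) (h2 : E * K = 1)
    (h : K * F = F * K) : E * F = F * E := by
  calc E * F = E * F * (K * E) := by rw [h1, mul_one]
    _ = E * (F * K) * E := by noncomm_ring
    _ = E * (K * F) * E := by rw [h]
    _ = (E * K) * F * E := by noncomm_ring
    _ = F * E := by rw [h2, one_mul]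

/-- One step of the core argument, with error `e`: `E = ((F+G)²+ε)⁻¹`, `f' g' = c h`, `h = G Y F`,
`‖E F f' - E F F‖ ≤ e`, `‖g' G E - G G E‖ ≤ e`. Conclusion:
`‖h δ‖² ≤ ‖h‖² (e + re τ(1-κ₁) - (re τ(κ₂) - e)/(1+e))`, `κ₁ = E F F`, `κ₂ = G G E`, `τ(X) = ⟪δ, X δ⟫`.

Proof. `E` commutes with `F` and `G` (because `(F+G)² = F² + G²` commutes with both, as `F G = G F = 0`),
`E F G = 0`, `F G E = 0`. Put `P = E F f'`, `Q = g' G E`. `P g' = E F (c G Y F) = 0`,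
`f' Q = c G Y F G E = 0`. Let `q` = range projection of `g'`, `s` = range projection of `Q`
(`range_proj`). `P q = 0`, `f' s = 0`; `q Q = Q` (since `q g' = g'`) so `q s = s` (apply the universal
property of `s` to `X = 1 - q`), `s q = s` (adjoint); `u = q - s` is a projection.
(i) `re τ(q) ≤ e + re τ(1-κ₁)`: `τ(κ₁ q) = τ((κ₁ - P) q)` has modulus `≤ e`;
`τ((1-κ₁)(1-q)) = τ((1-q)(1-κ₁)(1-q)) ≥ 0` (trace property) because
`1 - κ₁ = ε E + G E G` is positive (`(F² + G² + ε) E = 1`).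
(ii) `(1+e) re τ(s) ≥ re τ(κ₂) - e`: `τ(Q) = τ(s Q) = τ(s s Q) = τ(s Q s)` (trace property), modulus
`≤ ‖Q‖ ‖s δ‖²`, `‖s δ‖² = re τ(s)`, `‖Q‖ ≤ ‖κ₂‖ + e ≤ 1 + e`
(`κ₂ = G E G`, and `‖G E G‖ ≤ 1`: from `‖(F+G) E (F+G)‖ ≤ 1`, `(F+G)E(F+G) = F E F + G E G`, and both
positive; or directly).
(iii) `g' = q g' = u g' + s g'`, `f' s = 0`, so `h = c⁻¹ f' u g'`; `rank_lemma`; and
`‖u δ‖² = re τ(u) = re τ(q) - re τ(s)`. -/
theorem core_step (R : Set (H →L[ℂ] H)) (hR : ∀ r ∈ R, star r ∈ R) (δ : H) (hδ : ‖δ‖ = 1)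
    (htr : ∀ S ∈ Set.centralizer R, ∀ T ∈ Set.centralizer R, ⟪δ, S (T δ)⟫_ℂ = ⟪δ, T (S δ)⟫_ℂ)
    (F G Y f' g' : H →L[ℂ] H) (hF : F ∈ Set.centralizer R) (hG : G ∈ Set.centralizer R)
    (hY : Y ∈ Set.centralizer R) (hf' : f' ∈ Set.centralizer R) (hg' : g' ∈ Set.centralizer R)
    (hFs : star F = F) (hGs : star G = G) (hFG : F * G = 0)
    (c : ℂ) (hc : c ≠ 0) (hfg : f' * g' = c • (G * Y * F))
    (ε : ℝ) (hε : 0 < ε) (E : H →L[ℂ] H) (hE : E ∈ Set.centralizer R)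
    (hE1 : ((F + G) * star (F + G) + (ε : ℂ) • (1 : H →L[ℂ] H)) * E = 1)
    (hE2 : E * ((F + G) * star (F + G) + (ε : ℂ) • (1 : H →L[ℂ] H)) = 1)
    (hEs : star E = E) (hEpos : ∀ ξ : H, 0 ≤ RCLike.re ⟪ξ, E ξ⟫_ℂ)
    (hEn : ‖star (F + G) * E * (F + G)‖ ≤ 1)
    (e : ℝ) (he : 0 ≤ e) (h1 : ‖E * F * f' - E * F * F‖ ≤ e) (h2 : ‖g' * G * E - G * G * E‖ ≤ e) :
    ‖(G * Y * F) δ‖ ^ 2 ≤ ‖G * Y * F‖ ^ 2 *
      (e + (1 - RCLike.re ⟪δ, (E * F * F) δ⟫_ℂ)
        - (RCLike.re ⟪δ, (G * G * E) δ⟫_ℂ - e) / (1 + e)) := by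
  have hGF : G * F = 0 := by
    have := congrArg star hFG
    rwa [star_mul, hFs, hGs, star_zero] at this
  have hK : (F + G) * star (F + G) + (ε : ℂ) • (1 : H →L[ℂ] H)
      = F * F + G * G + (ε : ℂ) • (1 : H →L[ℂ] H) := by
    rw [star_add, hFs, hGs, add_mul, mul_add, mul_add, hFG, hGF, add_zero, zero_add]
  rw [hK] at hE1 hE2
  set K : H →L[ℂ] H := F * F + G * G + (ε : ℂ) • (1 : H →L[ℂ] H) with hKdef
  have hKF : K * F = F * K := by
    rw [hKdef, add_mul, add_mul, mul_add, mul_add, mul_assoc G G F, hGF, mul_zero,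
      ← mul_assoc F G G, hFG, zero_mul, smul_mul_assoc, one_mul, mul_smul_comm, mul_one, mul_assoc]
  have hKG : K * G = G * K := by
    rw [hKdef, add_mul, add_mul, mul_add, mul_add, mul_assoc F F G, hFG, mul_zero,
      ← mul_assoc G F F, hGF, zero_mul, smul_mul_assoc, one_mul, mul_smul_comm, mul_one, mul_assoc]
  have hEF : E * F = F * E := inv_comm K E F hE1 hE2 hKF
  have hEG : E * G = G * E := inv_comm K E G hE1 hE2 hKG
  -- range projections
  obtain ⟨q, hqR, hqq, hqs, hqg, hqX⟩ := range_proj R hR g' hg'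
  have hQR : g' * G * E ∈ Set.centralizer R :=
    Set.mul_mem_centralizer (Set.mul_mem_centralizer hg' hG) hE
  obtain ⟨s, hsR, hss, hsst, hsQ, hsX⟩ := range_proj R hR (g' * G * E) hQR
  have hPq : E * F * f' * q = 0 := by
    apply hqX
    rw [mul_assoc (E * F) f' g', hfg, mul_smul_comm]
    have : E * F * (G * Y * F) = E * (F * G) * Y * F := by noncomm_ring
    rw [this, hFG]
    simp
  have hfs : f' * s = 0 := by
    apply hsX
    have : f' * (g' * G * E) = (f' * g') * G * E := by noncomm_ring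
    rw [this, hfg]
    have h' : c • (G * Y * F) * G * E = c • (G * Y * (F * G) * E) := by
      simp only [smul_mul_assoc, mul_assoc]
    rw [h', hFG]
    simp
  have hqs' : q * s = s := by
    have h0 : (1 - q) * (g' * G * E) = 0 := by
      have : (1 - q) * (g' * G * E) = (g' - q * g') * G * E := by noncomm_ring
      rw [this, hqg, sub_self]
      simp
    have h0' := hsX _ h0
    rw [sub_mul, one_mul, sub_eq_zero] at h0'
    exact h0'.symm
  have hsq' : s * q = s := by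
    have := congrArg star hqs'
    rwa [star_mul, hqs, hsst] at this
  set u : H →L[ℂ] H := q - s with hu
  have huu : u * u = u := by
    rw [hu, sub_mul, mul_sub, mul_sub, hqq, hqs', hsq', hss, sub_self, sub_zero]
  have hus : star u = u := by rw [hu, star_sub, hqs, hsst]
  have huR : u ∈ Set.centralizer R := by
    intro r hr
    rw [hu, mul_sub, sub_mul, hqR r hr, hsR r hr]
  -- the norm of `κ₂`
  have hGEGn : ∀ ξ : H, ‖(G * G * E) ξ‖ ≤ ‖ξ‖ := by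
    intro ξ
    have hκ : G * G * E = G * E * G := by rw [mul_assoc G G E, mul_assoc G E G, hEG]
    rw [hκ]
    have hZ : star (F + G) * E * (F + G) = F * E * F + G * E * G := by
      rw [star_add, hFs, hGs]
      have e1 : (F + G) * E * (F + G) = F * E * F + F * (E * G) + G * (E * F) + G * E * G := by
        noncomm_ring
      rw [e1, hEG, hEF]
      have e2 : F * (G * E) = (F * G) * E := by noncomm_ring
      have e3 : G * (F * E) = (G * F) * E := by noncomm_ring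
      rw [e2, e3, hFG, hGF]
      simp
    have horth : ⟪(F * E * F) ξ, (G * E * G) ξ⟫_ℂ = 0 := by
      have a1 : (F * E * F) ξ = F ((E * F) ξ) := rfl
      rw [a1, sa F hFs]
      have a2 : F ((G * E * G) ξ) = ((F * G) * (E * G)) ξ := by
        have : (F * G) * (E * G) = F * (G * E * G) := by noncomm_ring
        rw [this]; rfl
      rw [a2, hFG]
      simp
    have hn : ‖(F * E * F) ξ + (G * E * G) ξ‖ * ‖(F * E * F) ξ + (G * E * G) ξ‖
        = ‖(F * E * F) ξ‖ * ‖(F * E * F) ξ‖ + ‖(G * E * G) ξ‖ * ‖(G * E * G) ξ‖ :=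
      norm_add_sq_eq_norm_sq_add_norm_sq_of_inner_eq_zero _ _ horth
    have hle : ‖(F * E * F) ξ + (G * E * G) ξ‖ ≤ ‖ξ‖ := by
      have h3 : (F * E * F) ξ + (G * E * G) ξ = (star (F + G) * E * (F + G)) ξ := by
        rw [hZ]; rfl
      rw [h3]
      calc ‖(star (F + G) * E * (F + G)) ξ‖ ≤ ‖star (F + G) * E * (F + G)‖ * ‖ξ‖ :=
            ContinuousLinearMap.le_opNorm _ _
        _ ≤ 1 * ‖ξ‖ := by gcongr
        _ = ‖ξ‖ := one_mul _
    have hge : ‖(G * E * G) ξ‖ ≤ ‖(F * E * F) ξ + (G * E * G) ξ‖ := by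
      by_contra hcon
      push Not at hcon
      have b1 := norm_nonneg ((F * E * F) ξ + (G * E * G) ξ)
      have b2 := mul_self_nonneg ‖(F * E * F) ξ‖
      nlinarith
    exact hge.trans hle
  have hκ2n : ‖G * G * E‖ ≤ 1 :=
    ContinuousLinearMap.opNorm_le_bound _ zero_le_one (fun ξ => by rw [one_mul]; exact hGEGn ξ)
  -- (i)
  have hi : RCLike.re ⟪δ, q δ⟫_ℂ ≤ e + (1 - RCLike.re ⟪δ, (E * F * F) δ⟫_ℂ) := by
    set κ : H →L[ℂ] H := E * F * F with hκdef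
    have hκR : κ ∈ Set.centralizer R :=
      Set.mul_mem_centralizer (Set.mul_mem_centralizer hE hF) hF
    -- 1 - κ positive
    have hpos : ∀ ξ : H, 0 ≤ RCLike.re ⟪ξ, (1 - κ) ξ⟫_ℂ := by
      intro ξ
      have h1κ : 1 - κ = G * E * G + (ε : ℂ) • E := by
        rw [hκdef, ← hE2, hKdef]
        have : E * (F * F + G * G + (ε : ℂ) • (1 : H →L[ℂ] H)) - E * F * F
            = E * G * G + E * ((ε : ℂ) • (1 : H →L[ℂ] H)) := by noncomm_ring
        rw [this, hEG, mul_smul_comm, mul_one]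
      rw [h1κ]
      have a1 : (G * E * G + (ε : ℂ) • E) ξ = G (E (G ξ)) + (ε : ℂ) • E ξ := rfl
      rw [a1, inner_add_right, inner_smul_right, map_add, ← sa G hGs]
      have a2 : RCLike.re ((ε : ℂ) * ⟪ξ, E ξ⟫_ℂ) = ε * RCLike.re ⟪ξ, E ξ⟫_ℂ := by
        simp
      rw [a2]
      have a3 := hEpos (G ξ)
      have a4 := mul_nonneg hε.le (hEpos ξ)
      linarith
    have h1q : (1 - q) ∈ Set.centralizer R := by
      intro r hr
      rw [mul_sub, sub_mul, hqR r hr, mul_one, one_mul]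
    have h1κ : (1 - κ) * (1 - q) ∈ Set.centralizer R := by
      apply Set.mul_mem_centralizer _ h1q
      intro r hr
      rw [mul_sub, sub_mul, hκR r hr, mul_one, one_mul]
    have hqq1 : (1 - q) * (1 - q) = 1 - q := by
      rw [sub_mul, mul_sub, mul_sub, hqq]
      simp
    have hqs1 : star (1 - q) = 1 - q := by rw [star_sub, star_one, hqs]
    have hb : 0 ≤ RCLike.re ⟪δ, ((1 - κ) * (1 - q)) δ⟫_ℂ := by
      have t1 : ((1 - κ) * (1 - q)) δ = ((1 - κ) * (1 - q)) ((1 - q) δ) := by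
        have : (1 - κ) * (1 - q) = (1 - κ) * (1 - q) * (1 - q) := by
          rw [mul_assoc, hqq1]
        conv_lhs => rw [this]
        rfl
      rw [t1, htr _ h1κ _ h1q, ← sa (1 - q) hqs1]
      exact hpos ((1 - q) δ)
    have hc1 : RCLike.re ⟪δ, (κ * q) δ⟫_ℂ ≤ e := by
      have t1 : κ * q = (κ - E * F * f') * q := by
        rw [sub_mul, hPq, sub_zero]
      rw [t1]
      calc RCLike.re ⟪δ, ((κ - E * F * f') * q) δ⟫_ℂ
          ≤ ‖⟪δ, ((κ - E * F * f') * q) δ⟫_ℂ‖ := RCLike.re_le_norm _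
        _ ≤ ‖δ‖ * ‖((κ - E * F * f') * q) δ‖ := norm_inner_le_norm _ _
        _ = ‖(κ - E * F * f') (q δ)‖ := by rw [hδ, one_mul]; rfl
        _ ≤ ‖κ - E * F * f'‖ * ‖q δ‖ := ContinuousLinearMap.le_opNorm _ _
        _ ≤ e * 1 := by
            apply mul_le_mul _ _ (norm_nonneg _) he
            · rw [norm_sub_rev]; exact h1
            · rw [← hδ]; exact proj_le q hqq hqs δ
        _ = e := mul_one e
    have hsum : ⟪δ, ((1 - κ) * (1 - q)) δ⟫_ℂ = ⟪δ, δ⟫_ℂ - ⟪δ, κ δ⟫_ℂ - ⟪δ, q δ⟫_ℂ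
        + ⟪δ, (κ * q) δ⟫_ℂ := by
      have : (1 - κ) * (1 - q) = 1 - κ - q + κ * q := by noncomm_ring
      rw [this]
      have t2 : (1 - κ - q + κ * q) δ = δ - κ δ - q δ + (κ * q) δ := rfl
      rw [t2]
      simp only [inner_add_right, inner_sub_right]
    have hδδ : RCLike.re ⟪δ, δ⟫_ℂ = 1 := by
      rw [inner_self_eq_norm_sq (𝕜 := ℂ), hδ, one_pow]
    rw [hsum, map_add, map_sub, map_sub, hδδ] at hb
    linarith
  -- (ii)
  have hii : (RCLike.re ⟪δ, (G * G * E) δ⟫_ℂ - e) / (1 + e) ≤ RCLike.re ⟪δ, s δ⟫_ℂ := by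
    rw [div_le_iff₀ (by linarith)]
    set Q : H →L[ℂ] H := g' * G * E with hQdef
    have hQn : ‖Q‖ ≤ 1 + e := by
      calc ‖Q‖ = ‖G * G * E + (Q - G * G * E)‖ := by rw [add_sub_cancel]
        _ ≤ ‖G * G * E‖ + ‖Q - G * G * E‖ := norm_add_le _ _
        _ ≤ 1 + e := add_le_add hκ2n h2
    have hτQ : RCLike.re ⟪δ, Q δ⟫_ℂ ≤ (1 + e) * ‖s δ‖ ^ 2 := by
      have t0 : Q δ = s ((s * Q) δ) := by
        have : Q = s * (s * Q) := by rw [hsQ, hsQ]
        conv_lhs => rw [this]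
        rfl
      have t1 : ⟪δ, Q δ⟫_ℂ = ⟪s δ, Q (s δ)⟫_ℂ := by
        rw [t0, htr s hsR (s * Q) (Set.mul_mem_centralizer hsR hQR), sa s hsst]
        rfl
      rw [t1]
      calc RCLike.re ⟪s δ, Q (s δ)⟫_ℂ ≤ ‖⟪s δ, Q (s δ)⟫_ℂ‖ := RCLike.re_le_norm _
        _ ≤ ‖s δ‖ * ‖Q (s δ)‖ := norm_inner_le_norm _ _
        _ ≤ ‖s δ‖ * (‖Q‖ * ‖s δ‖) := by
            gcongr
            exact ContinuousLinearMap.le_opNorm _ _
        _ ≤ ‖s δ‖ * ((1 + e) * ‖s δ‖) := by gcongr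
        _ = (1 + e) * ‖s δ‖ ^ 2 := by ring
    have hdiff : RCLike.re ⟪δ, (G * G * E) δ⟫_ℂ - RCLike.re ⟪δ, Q δ⟫_ℂ ≤ e := by
      rw [← map_sub, ← inner_sub_right]
      calc RCLike.re ⟪δ, (G * G * E) δ - Q δ⟫_ℂ ≤ ‖⟪δ, (G * G * E) δ - Q δ⟫_ℂ‖ :=
            RCLike.re_le_norm _
        _ ≤ ‖δ‖ * ‖(G * G * E) δ - Q δ‖ := norm_inner_le_norm _ _
        _ = ‖(G * G * E - Q) δ‖ := by rw [hδ, one_mul]; rfl
        _ ≤ ‖G * G * E - Q‖ * ‖δ‖ := ContinuousLinearMap.le_opNorm _ _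
        _ ≤ e := by rw [hδ, mul_one, norm_sub_rev]; exact h2
    rw [proj_nsq s hss hsst] at hτQ
    linarith
  -- (iii)
  have hh : G * Y * F = (c⁻¹ • f') * u * g' := by
    have t1 : f' * g' = f' * u * g' := by
      rw [hu, mul_sub, sub_mul, hfs, zero_mul, sub_zero, mul_assoc, hqg]
    rw [smul_mul_assoc, smul_mul_assoc, ← t1, hfg, smul_smul, inv_mul_cancel₀ hc, one_smul]
  have hcf : c⁻¹ • f' ∈ Set.centralizer R := by
    intro r hr
    rw [mul_smul_comm, smul_mul_assoc, hf' r hr]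
  have hrank := rank_lemma R hR δ htr (c⁻¹ • f') u g' hcf hg' huR huu hus
  rw [← hh, proj_nsq u huu hus] at hrank
  refine hrank.trans ?_
  apply mul_le_mul_of_nonneg_left _ (sq_nonneg _)
  have : RCLike.re ⟪δ, u δ⟫_ℂ = RCLike.re ⟪δ, q δ⟫_ℂ - RCLike.re ⟪δ, s δ⟫_ℂ := by
    have t2 : u δ = q δ - s δ := rfl
    rw [t2, inner_sub_right, map_sub]
  rw [this]
  linarith

end Pool.Agent.Helper951_oc
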