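import Pool.Agent.Helper951_oc.CORE

/-! Project OC (MP_3d0876_an), part CORE, limit. -/

namespace Pool.Agent.Helper951_oc

open scoped InnerProductSpace

variable {H : Type*} [NormedAddCommGroup H] [InnerProductSpace ℂ H] [CompleteSpace H]

namespace Corex

theorem sa_zero {A : H →L[ℂ] H} (hA : star A = A) {v : H} (h : A (A v) = 0) : A v = 0 := by
  have h1 : ⟪A v, A v⟫_ℂ = 0 := by
    have h2 := ContinuousLinearMap.adjoint_inner_left A v (A v)
    rw [← ContinuousLinearMap.star_eq_adjoint, hA, h, inner_zero_left] at h2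
    exact h2.symm
  exact inner_self_eq_zero.1 h1

end Corex

/-- Core theorem: limit of `core_step`. For fixed `ε` let `n → ∞` (`e → 0`):
`‖h δ‖² ≤ ‖h‖² (1 - τ(κ₁) - τ(κ₂)) = ‖h‖² ε re τ(E)` (as `κ₁ + κ₂ = (F+G)² E = 1 - ε E`), then
`ε → 0`: `ε E δ → δ - p δ = 0`, since `F + G` is injective and self-adjoint, so its range is dense and
`p = 1` (`range_proj` gives `p`; `(1-p)(F+G) = 0`, adjoint `(F+G)(1-p) = 0`, so `p = 1` by `hker`:
`(F+G) ξ = 0` implies `F F ξ = F (F + G) ξ = 0`, so `F ξ = 0`, same for `G`). -/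
theorem core (R : Set (H →L[ℂ] H)) (hR : ∀ r ∈ R, star r ∈ R) (δ : H) (hδ : ‖δ‖ = 1)
    (htr : ∀ S ∈ Set.centralizer R, ∀ T ∈ Set.centralizer R, ⟪δ, S (T δ)⟫_ℂ = ⟪δ, T (S δ)⟫_ℂ)
    (F G Y : H →L[ℂ] H) (hF : F ∈ Set.centralizer R) (hG : G ∈ Set.centralizer R)
    (hY : Y ∈ Set.centralizer R) (hFs : star F = F) (hGs : star G = G) (hFG : F * G = 0)
    (hker : ∀ ξ : H, F ξ = 0 → G ξ = 0 → ξ = 0)
    (f' g' : ℕ → (H →L[ℂ] H)) (hf' : ∀ n, f' n ∈ Set.centralizer R)
    (hg' : ∀ n, g' n ∈ Set.centralizer R)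
    (hfl : Filter.Tendsto f' Filter.atTop (nhds F)) (hgl : Filter.Tendsto g' Filter.atTop (nhds G))
    (c : ℕ → ℂ) (hc : ∀ n, c n ≠ 0) (hfg : ∀ n, f' n * g' n = c n • (G * Y * F)) :
    (G * Y * F) δ = 0 := by
  have hGF : G * F = 0 := by
    have h0 := congrArg star hFG
    rw [star_mul, star_zero, hFs, hGs] at h0
    exact h0
  have hTc : F + G ∈ Set.centralizer R := by
    intro r hr
    rw [mul_add, add_mul, hF r hr, hG r hr]
  have hTs : star (F + G) = F + G := by rw [star_add, hFs, hGs]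
  have hX : ∀ X : H →L[ℂ] H, X * (F + G) = 0 → X * 1 = 0 := by
    intro X hX0
    rw [mul_one]
    have h1 := congrArg star hX0
    rw [star_mul, star_zero, hTs] at h1
    have h2 : star X = 0 := by
      apply ContinuousLinearMap.ext
      intro ξ
      have h3 : (F + G) ((star X) ξ) = 0 := congrArg (fun A : H →L[ℂ] H => A ξ) h1
      rw [ContinuousLinearMap.add_apply] at h3
      have h4 : F (G ((star X) ξ)) = 0 := congrArg (fun A : H →L[ℂ] H => A ((star X) ξ)) hFG
      have h5 : G (F ((star X) ξ)) = 0 := congrArg (fun A : H →L[ℂ] H => A ((star X) ξ)) hGF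
      have h6 : F (F ((star X) ξ)) = 0 := by
        have := congrArg F h3
        rw [map_add, h4, add_zero, map_zero] at this
        exact this
      have h7 : G (G ((star X) ξ)) = 0 := by
        have := congrArg G h3
        rw [map_add, h5, zero_add, map_zero] at this
        exact this
      exact hker _ (Corex.sa_zero hFs h6) (Corex.sa_zero hGs h7)
    rw [← star_star X, h2, star_zero]
  -- the bound for fixed `ε`
  have key : ∀ ε : ℝ, 0 < ε → ∀ E ∈ Set.centralizer R,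
      ((F + G) * star (F + G) + (ε : ℂ) • (1 : H →L[ℂ] H)) * E = 1 →
      E * ((F + G) * star (F + G) + (ε : ℂ) • (1 : H →L[ℂ] H)) = 1 →
      star E = E → (∀ ξ : H, 0 ≤ RCLike.re ⟪ξ, E ξ⟫_ℂ) → ‖star (F + G) * E * (F + G)‖ ≤ 1 →
      ‖(G * Y * F) δ‖ ^ 2 ≤ ‖G * Y * F‖ ^ 2 * ‖(ε : ℂ) • E δ‖ := by
    intro ε hε E hE hE1 hE2 hEs hEpos hEn
    have hen : Filter.Tendsto (fun n => max ‖E * F * f' n - E * F * F‖ ‖g' n * G * E - G * G * E‖)
        Filter.atTop (nhds 0) := by
      have t1 : Filter.Tendsto (fun n => E * F * f' n) Filter.atTop (nhds (E * F * F)) :=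
        hfl.const_mul (E * F)
      have t2 : Filter.Tendsto (fun n => g' n * G * E) Filter.atTop (nhds (G * G * E)) :=
        (hgl.mul_const G).mul_const E
      have t3 := tendsto_iff_norm_sub_tendsto_zero.1 t1
      have t4 := tendsto_iff_norm_sub_tendsto_zero.1 t2
      have t5 := t3.max t4
      rw [max_self] at t5
      exact t5
    have hstep : ∀ n, ‖(G * Y * F) δ‖ ^ 2 ≤ ‖G * Y * F‖ ^ 2 *
        ((max ‖E * F * f' n - E * F * F‖ ‖g' n * G * E - G * G * E‖) +
          (1 - RCLike.re ⟪δ, (E * F * F) δ⟫_ℂ)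
          - (RCLike.re ⟪δ, (G * G * E) δ⟫_ℂ - (max ‖E * F * f' n - E * F * F‖ ‖g' n * G * E - G * G * E‖)) /
            (1 + (max ‖E * F * f' n - E * F * F‖ ‖g' n * G * E - G * G * E‖))) := by
      intro n
      exact core_step R hR δ hδ htr F G Y (f' n) (g' n) hF hG hY (hf' n) (hg' n) hFs hGs hFG (c n) (hc n)
        (hfg n) ε hε E hE hE1 hE2 hEs hEpos hEn _ (le_max_of_le_left (norm_nonneg _))
        (le_max_left _ _) (le_max_right _ _)
    have hlim : Filter.Tendsto (fun n => ‖G * Y * F‖ ^ 2 *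
        ((max ‖E * F * f' n - E * F * F‖ ‖g' n * G * E - G * G * E‖) +
          (1 - RCLike.re ⟪δ, (E * F * F) δ⟫_ℂ)
          - (RCLike.re ⟪δ, (G * G * E) δ⟫_ℂ - (max ‖E * F * f' n - E * F * F‖ ‖g' n * G * E - G * G * E‖)) /
            (1 + (max ‖E * F * f' n - E * F * F‖ ‖g' n * G * E - G * G * E‖)))) Filter.atTop
        (nhds (‖G * Y * F‖ ^ 2 * (0 + (1 - RCLike.re ⟪δ, (E * F * F) δ⟫_ℂ)
          - (RCLike.re ⟪δ, (G * G * E) δ⟫_ℂ - 0) / (1 + 0)))) := by
      apply Filter.Tendsto.const_mul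
      apply Filter.Tendsto.sub
      · exact hen.add_const _
      · apply Filter.Tendsto.div
        · exact hen.const_sub _
        · exact hen.const_add _
        · norm_num
    have h1 := ge_of_tendsto' hlim hstep
    have h2 : RCLike.re ⟪δ, (E * F * F) δ⟫_ℂ + RCLike.re ⟪δ, (G * G * E) δ⟫_ℂ =
        1 - RCLike.re ⟪δ, (ε : ℂ) • E δ⟫_ℂ := by
      have hGG : G * G ∈ Set.centralizer R := by
        intro r hr
        rw [← mul_assoc, hG r hr, mul_assoc, hG r hr, ← mul_assoc]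
      have h3 : ⟪δ, (G * G * E) δ⟫_ℂ = ⟪δ, (E * (G * G)) δ⟫_ℂ := htr (G * G) hGG E hE
      rw [h3, ← map_add, ← inner_add_right, ← ContinuousLinearMap.add_apply]
      have h4 : E * F * F + E * (G * G) = 1 - (ε : ℂ) • E := by
        have h5 : (F + G) * star (F + G) = F * F + G * G := by
          rw [hTs, add_mul, mul_add, mul_add, hFG, hGF, add_zero, zero_add]
        rw [h5, mul_add, mul_add, mul_smul_comm, mul_one] at hE2
        rw [← hE2, mul_assoc]
        abel
      rw [h4, ContinuousLinearMap.sub_apply, inner_sub_right, map_sub]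
      have h6 : RCLike.re ⟪δ, (1 : H →L[ℂ] H) δ⟫_ℂ = 1 := by
        rw [ContinuousLinearMap.one_apply, inner_self_eq_norm_sq, hδ]
        norm_num
      rw [h6]
      rfl
    have h7 : RCLike.re ⟪δ, (ε : ℂ) • E δ⟫_ℂ ≤ ‖(ε : ℂ) • E δ‖ := by
      have h8 := re_inner_le_norm (𝕜 := ℂ) δ ((ε : ℂ) • E δ)
      rw [hδ, one_mul] at h8
      exact h8
    refine h1.trans ?_
    apply mul_le_mul_of_nonneg_left _ (by positivity)
    rw [zero_add, add_zero, div_one, sub_zero]
    linarith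
  -- the limit `ε → 0`
  have hsq : ‖(G * Y * F) δ‖ ^ 2 ≤ 0 := by
    apply le_of_forall_pos_le_add
    intro η hη
    rw [zero_add]
    have hη' : 0 < η / (‖G * Y * F‖ ^ 2 + 1) := by positivity
    obtain ⟨ε₀, hε₀, hlim⟩ := resolvent_lim (F + G) 1 (mul_one 1) (star_one _) (one_mul _) hX δ _ hη'
    obtain ⟨E, hE, hE1, hE2, hEs, hEpos, _, hEn⟩ := resolvent R hR (F + G) hTc (ε₀ / 2) (by positivity)
    have h1 := key (ε₀ / 2) (by positivity) E hE hE1 hE2 hEs hEpos hEn
    have h2 := hlim (ε₀ / 2) (by positivity) (by linarith) E hE1 hE2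
    rw [ContinuousLinearMap.one_apply, sub_self, sub_zero] at h2
    refine h1.trans ?_
    calc ‖G * Y * F‖ ^ 2 * ‖((ε₀ / 2 : ℝ) : ℂ) • E δ‖
        ≤ (‖G * Y * F‖ ^ 2 + 1) * (η / (‖G * Y * F‖ ^ 2 + 1)) := by
          apply mul_le_mul _ h2.le (norm_nonneg _) (by positivity)
          linarith
      _ = η := by
          field_simp
  have h0 : ‖(G * Y * F) δ‖ = 0 := by
    have := norm_nonneg ((G * Y * F) δ)
    nlinarith
  exact norm_eq_zero.1 h0

end Pool.Agent.Helper951_oc
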