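import Mathlib

/-! Project OC (MP_3d0876_an), part EIG: no eigenvectors of a translation in `ℓ²(G)` with eigenvalue
that is not a root of unity. -/

namespace Pool.Agent.Helper951_oc

/-- Proof: `|ξ (t⁻¹ s)| = |ξ s|`. If `t` has infinite order, `|ξ|` is constant on the infinite set
`{t⁻ⁿ s}`, so square-summability gives `ξ s = 0`. If `t ^ n = 1` with `n > 0`, then
`ξ s = ξ (t⁻ⁿ s) = μ ^ n ξ s`, and `μ ^ n ≠ 1`. -/
theorem eig {G : Type*} [Group G] (t : G) (μ : ℂ) (hμ : ‖μ‖ = 1) (hroot : ∀ n : ℕ, 0 < n → μ ^ n ≠ 1)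
    (ξ : lp (fun _ : G => ℂ) 2) (h : ∀ s : G, (ξ : G → ℂ) (t⁻¹ * s) = μ * (ξ : G → ℂ) s) : ξ = 0 := by
  have hpow : ∀ (n : ℕ) (s : G), (ξ : G → ℂ) ((t⁻¹) ^ n * s) = μ ^ n * (ξ : G → ℂ) s := by
    intro n
    induction n with
    | zero => intro s; simp
    | succ n ih =>
      intro s
      rw [pow_succ' t⁻¹ n, mul_assoc, h, ih, pow_succ' μ n, mul_assoc]
  apply lp.ext
  funext s
  by_contra hs
  have hs0 : (ξ : G → ℂ) s ≠ 0 := hs
  by_cases hfin : IsOfFinOrder t
  · obtain ⟨n, hn, hn1⟩ := isOfFinOrder_iff_pow_eq_one.mp hfin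
    have h1 := hpow n s
    rw [inv_pow, hn1, inv_one, one_mul] at h1
    apply hroot n hn
    have h2 : (μ ^ n - 1) * (ξ : G → ℂ) s = 0 := by
      rw [sub_mul, one_mul, ← h1, sub_self]
    rcases mul_eq_zero.mp h2 with h3 | h3
    · exact sub_eq_zero.mp h3
    · exact absurd h3 hs0
  · have hinj : Function.Injective (fun n : ℕ => (t⁻¹) ^ n * s) := by
      intro a b hab
      have hab' : (t⁻¹) ^ a = (t⁻¹) ^ b := mul_right_cancel hab
      have hinj' : Function.Injective (fun n : ℕ => t ^ n) :=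
        injective_pow_iff_not_isOfFinOrder.mpr hfin
      apply hinj'
      show t ^ a = t ^ b
      rw [inv_pow, inv_pow] at hab'
      exact inv_injective hab'
    have hsum : Summable (fun g : G => ‖(ξ : G → ℂ) g‖ ^ (2 : ENNReal).toReal) :=
      (lp.memℓp ξ).summable (by norm_num)
    have hsum2 : Summable (fun n : ℕ => ‖(ξ : G → ℂ) ((t⁻¹) ^ n * s)‖ ^ (2 : ENNReal).toReal) :=
      hsum.comp_injective hinj
    have hconst : (fun n : ℕ => ‖(ξ : G → ℂ) ((t⁻¹) ^ n * s)‖ ^ (2 : ENNReal).toReal)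
        = fun _ : ℕ => ‖(ξ : G → ℂ) s‖ ^ (2 : ENNReal).toReal := by
      funext n
      rw [hpow, norm_mul, norm_pow, hμ, one_pow, one_mul]
    rw [hconst] at hsum2
    have hz := summable_const_iff _ |>.mp hsum2
    have hp : 0 < ‖(ξ : G → ℂ) s‖ ^ (2 : ENNReal).toReal :=
      Real.rpow_pos_of_pos (norm_pos_iff.mpr hs0) _
    exact absurd hz hp.ne'

/-- `exp (i)` is not a root of unity (irrationality of `π`). -/
theorem exp_I_not_root (n : ℕ) (hn : 0 < n) : (Complex.exp (-Complex.I)) ^ n ≠ 1 := by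
  intro hE
  rw [← Complex.exp_nat_mul, Complex.exp_eq_one_iff] at hE
  obtain ⟨k, hk⟩ := hE
  have him := congrArg Complex.im hk
  have h1 : ((n : ℂ) * -Complex.I).im = -(n : ℝ) := by simp
  have h2 : ((k : ℂ) * (2 * (Real.pi : ℂ) * Complex.I)).im = (k : ℝ) * (2 * Real.pi) := by
    simp
  rw [h1, h2] at him
  have hk0 : (k : ℝ) ≠ 0 := by
    intro h0
    rw [h0, zero_mul] at him
    have : (n : ℝ) = 0 := by linarith
    exact hn.ne' (by exact_mod_cast this)
  apply irrational_pi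
  refine ⟨(-(n : ℚ)) / (2 * (k : ℚ)), ?_⟩
  push_cast
  field_simp
  linarith

end Pool.Agent.Helper951_oc
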