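import Pool.Agent.Helper951_oc.RING
import Pool.Agent.Helper951_oc.CORE2

/-! Project OC (MP_3d0876_an), part FA: use of openness. -/

set_option linter.unusedSectionVars false

namespace Pool.Agent.Helper951_oc

open scoped ENNReal InnerProductSpace
open Filter

variable {G : Type*} [Group G]

/-- Self-adjointness of an element of `ℓ¹(G)` (in the regular representation). -/
def SA (a : A1 G) : Prop := star (Lam a) = Lam a

/-- Proof: for each `n` the image of `ball f (1/(n+1)) ×ˢ ball g (1/(n+1))` is open and contains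
`f * g = 0`, so it contains `c • k` for some small real `c > 0`; choose. -/
theorem open_seq (hopen : IsOpenMap (fun p : A1 G × A1 G => p.1 * p.2)) (f g k : A1 G)
    (hfg : f * g = 0) :
    ∃ (f' g' : ℕ → A1 G) (c : ℕ → ℂ), Tendsto f' atTop (nhds f) ∧ Tendsto g' atTop (nhds g) ∧
      (∀ n, c n ≠ 0) ∧ ∀ n, f' n * g' n = c n • k := by
  have key : ∀ n : ℕ, ∃ (a b : A1 G) (c : ℂ), dist a f < 1 / ((n : ℝ) + 1) ∧
      dist b g < 1 / ((n : ℝ) + 1) ∧ c ≠ 0 ∧ a * b = c • k := by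
    intro n
    have hn : (0 : ℝ) < 1 / ((n : ℝ) + 1) := by positivity
    have ho : IsOpen ((fun p : A1 G × A1 G => p.1 * p.2) ''
        (Metric.ball f (1 / ((n : ℝ) + 1)) ×ˢ Metric.ball g (1 / ((n : ℝ) + 1)))) :=
      hopen _ (Metric.isOpen_ball.prod Metric.isOpen_ball)
    have h0 : (0 : A1 G) ∈ (fun p : A1 G × A1 G => p.1 * p.2) ''
        (Metric.ball f (1 / ((n : ℝ) + 1)) ×ˢ Metric.ball g (1 / ((n : ℝ) + 1))) :=
      ⟨(f, g), ⟨Metric.mem_ball_self hn, Metric.mem_ball_self hn⟩, hfg⟩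
    obtain ⟨ε, hε, hb⟩ := Metric.isOpen_iff.1 ho 0 h0
    have hk : 0 < ‖k‖ + 1 := by positivity
    obtain ⟨c, hcd⟩ : ∃ c : ℝ, c = ε / (2 * (‖k‖ + 1)) := ⟨_, rfl⟩
    have hc : 0 < c := by rw [hcd]; positivity
    have hck : ((c : ℂ) • k) ∈ Metric.ball (0 : A1 G) ε := by
      rw [mem_ball_zero_iff, norm_smul, Complex.norm_real, Real.norm_of_nonneg hc.le]
      calc c * ‖k‖ ≤ c * (‖k‖ + 1) := by
            apply mul_le_mul_of_nonneg_left (by linarith) hc.le
        _ = ε / 2 := by rw [hcd]; field_simp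
        _ < ε := by linarith
    obtain ⟨⟨a, b⟩, ⟨ha, hb'⟩, hab⟩ := hb hck
    exact ⟨a, b, c, ha, hb', by exact_mod_cast hc.ne', hab⟩
  choose f' g' c h1 h2 h3 h4 using key
  refine ⟨f', g', c, ?_, ?_, h3, h4⟩
  · rw [tendsto_iff_dist_tendsto_zero]
    exact squeeze_zero (fun _ => dist_nonneg) (fun n => (h1 n).le)
      tendsto_one_div_add_atTop_nhds_zero_nat
  · rw [tendsto_iff_dist_tendsto_zero]
    exact squeeze_zero (fun _ => dist_nonneg) (fun n => (h2 n).le)
      tendsto_one_div_add_atTop_nhds_zero_nat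

/-- Proof: `core` with `R = rightT G`, `δ = sgl 2 1`, `F = Lam f`, `G = Lam g`, `Y = Lam k`,
`f' = Lam ∘ f'` etc., then `Lam_inj`. -/
theorem kill (hopen : IsOpenMap (fun p : A1 G × A1 G => p.1 * p.2)) (f g k : A1 G)
    (hfg : f * g = 0) (hf : SA f) (hg : SA g)
    (hker : ∀ ξ : L2 G, Lam f ξ = 0 → Lam g ξ = 0 → ξ = 0) : g * k * f = 0 := by
  obtain ⟨f', g', c, hf', hg', hc, hfg'⟩ := open_seq hopen f g (g * k * f) hfg
  apply Lam_inj
  rw [Lam_mul, Lam_mul]
  refine core (rightT G) star_rightT (sgl 2 1) norm_delta trace_prop (Lam f) (Lam g) (Lam k)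
    (Lam_mem f) (Lam_mem g) (Lam_mem k) hf hg ?_ hker (fun n => Lam (f' n)) (fun n => Lam (g' n))
    (fun n => Lam_mem _) (fun n => Lam_mem _) ((continuous_Lam.tendsto f).comp hf')
    ((continuous_Lam.tendsto g).comp hg') c hc ?_
  · rw [← Lam_mul, hfg]
    exact map_zero (LamL (G := G))
  · intro n
    show Lam (f' n) * Lam (g' n) = c n • (Lam g * Lam k * Lam f)
    rw [← Lam_mul, hfg' n, Lam_smul, Lam_mul, Lam_mul]

end Pool.Agent.Helper951_oc
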