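import Mathlib

/-! Project OC (MP_3d0876_an), part SQRT: square roots of `1 - w`, `‖w‖ ≤ 1`, in a Banach algebra. -/

namespace Pool.Agent.Helper951_oc

namespace SQRTx

/-- the iterates -/
noncomputable def Bs {A : Type*} [NormedRing A] [NormedAlgebra ℂ A] (w : A) : ℕ → A
  | 0 => 0
  | k + 1 => (1 / 2 : ℂ) • (w + Bs w k * Bs w k)

/-- the scalar iterates -/
noncomputable def bs : ℕ → ℝ
  | 0 => 0
  | k + 1 => (1 + bs k ^ 2) / 2

theorem bs_mem (k : ℕ) : 0 ≤ bs k ∧ bs k ≤ 1 := by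
  induction k with
  | zero => simp [bs]
  | succ k ih =>
    obtain ⟨h1, h2⟩ := ih
    constructor
    · simp only [bs]; positivity
    · simp only [bs]; nlinarith

theorem bs_mono (k : ℕ) : bs k ≤ bs (k + 1) := by
  simp only [bs]
  nlinarith [sq_nonneg (1 - bs k)]

theorem commute_Bs {A : Type*} [NormedRing A] [NormedAlgebra ℂ A] (w x : A) (h : Commute x w)
    (k : ℕ) : Commute x (Bs w k) := by
  induction k with
  | zero => exact Commute.zero_right x
  | succ k ih => exact (h.add_right (ih.mul_right ih)).smul_right _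

theorem commute_Bs2 {A : Type*} [NormedRing A] [NormedAlgebra ℂ A] (w : A) (j k : ℕ) :
    Commute (Bs w j) (Bs w k) :=
  commute_Bs w _ (commute_Bs w w (Commute.refl w) j).symm k

theorem norm_half {A : Type*} [NormedRing A] [NormedAlgebra ℂ A] (x : A) :
    ‖(1 / 2 : ℂ) • x‖ = ‖x‖ / 2 := by
  rw [norm_smul]
  norm_num
  ring

theorem norm_Bs {A : Type*} [NormedRing A] [NormedAlgebra ℂ A] (w : A) (hw : ‖w‖ ≤ 1) (k : ℕ) :
    ‖Bs w k‖ ≤ bs k := by
  induction k with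
  | zero => simp [Bs, bs]
  | succ k ih =>
    have h1 : ‖Bs w k * Bs w k‖ ≤ bs k ^ 2 := by
      rw [sq]
      exact (norm_mul_le _ _).trans (mul_le_mul ih ih (norm_nonneg _) (bs_mem k).1)
    have h2 : ‖w + Bs w k * Bs w k‖ ≤ 1 + bs k ^ 2 :=
      (norm_add_le _ _).trans (add_le_add hw h1)
    show ‖(1 / 2 : ℂ) • (w + Bs w k * Bs w k)‖ ≤ (1 + bs k ^ 2) / 2
    rw [norm_half]
    linarith

theorem norm_step {A : Type*} [NormedRing A] [NormedAlgebra ℂ A] (w : A) (hw : ‖w‖ ≤ 1) (k : ℕ) :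
    ‖Bs w (k + 1) - Bs w k‖ ≤ bs (k + 1) - bs k := by
  induction k with
  | zero =>
    have h1 : Bs w (0 + 1) - Bs w 0 = (1 / 2 : ℂ) • w := by
      simp [Bs]
    rw [h1, norm_half]
    simp only [bs]
    norm_num
    linarith
  | succ k ih =>
    have h1 : Bs w (k + 1 + 1) - Bs w (k + 1) =
        (1 / 2 : ℂ) • ((Bs w (k + 1) + Bs w k) * (Bs w (k + 1) - Bs w k)) := by
      have h2 : Bs w (k + 1 + 1) = (1 / 2 : ℂ) • (w + Bs w (k + 1) * Bs w (k + 1)) := rfl
      have h3 : Bs w (k + 1) = (1 / 2 : ℂ) • (w + Bs w k * Bs w k) := rfl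
      have h4 : Bs w (k + 1 + 1) - Bs w (k + 1) =
          (1 / 2 : ℂ) • (Bs w (k + 1) * Bs w (k + 1) - Bs w k * Bs w k) := by
        rw [h2]
        nth_rewrite 3 [h3]
        rw [← smul_sub]
        congr 1
        abel
      rw [h4]
      congr 1
      have h5 : Bs w k * Bs w (k + 1) = Bs w (k + 1) * Bs w k := commute_Bs2 w k (k + 1)
      rw [add_mul, mul_sub, mul_sub, h5]
      abel
    rw [h1, norm_half]
    have h6 : ‖Bs w (k + 1) + Bs w k‖ ≤ bs (k + 1) + bs k :=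
      (norm_add_le _ _).trans (add_le_add (norm_Bs w hw _) (norm_Bs w hw _))
    have h7 : ‖(Bs w (k + 1) + Bs w k) * (Bs w (k + 1) - Bs w k)‖ ≤
        (bs (k + 1) + bs k) * (bs (k + 1) - bs k) :=
      (norm_mul_le _ _).trans (mul_le_mul h6 ih (norm_nonneg _)
        (add_nonneg (bs_mem _).1 (bs_mem _).1))
    have h8 : bs (k + 1 + 1) - bs (k + 1) = (bs (k + 1) + bs k) * (bs (k + 1) - bs k) / 2 := by
      have e1 : bs (k + 1 + 1) = (1 + bs (k + 1) ^ 2) / 2 := rfl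
      have e2 : bs (k + 1) = (1 + bs k ^ 2) / 2 := rfl
      have e3 : bs (k + 1 + 1) - bs (k + 1) = (1 + bs (k + 1) ^ 2) / 2 - (1 + bs k ^ 2) / 2 := by
        rw [e1]
        nth_rewrite 2 [e2]
        rfl
      rw [e3]
      ring
    rw [h8]
    linarith

end SQRTx

open SQRTx Filter Topology in
/-- Iterate `B₀ = 0`, `B_{k+1} = (w + B_k²)/2`; `β₀ = 0`, `β_{k+1} = (1+β_k²)/2` (increasing, `≤ 1`).
All `B_k` commute (polynomials in `w`); by induction `‖B_k‖ ≤ β_k` and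
`‖B_{k+1} - B_k‖ ≤ β_{k+1} - β_k`, because `B_{k+1}² - B_k² = (B_{k+1}+B_k)(B_{k+1}-B_k)`.
So `B_k` is Cauchy; the limit satisfies `2B = w + B²`, i.e. `(1-B)² = 1-w`. -/
theorem sqrt_lemma {A : Type*} [NormedRing A] [NormedAlgebra ℂ A] [CompleteSpace A] (w : A)
    (hw : ‖w‖ ≤ 1) :
    ∃ B : A, ‖B‖ ≤ 1 ∧ (1 - B) * (1 - B) = 1 - w ∧
      ∀ P : Set A, IsClosed P → (0 : A) ∈ P → (∀ b ∈ P, (1 / 2 : ℂ) • (w + b * b) ∈ P) → B ∈ P := by
  have hsum : Summable (fun n => bs (n + 1) - bs n) := by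
    refine summable_of_sum_range_le (c := 1) (fun n => sub_nonneg.2 (bs_mono n)) (fun n => ?_)
    rw [Finset.sum_range_sub]
    have h1 := (bs_mem n).2
    simp only [bs, sub_zero]
    exact h1
  have hcau : CauchySeq (Bs w) := by
    refine cauchySeq_of_dist_le_of_summable (fun n => bs (n + 1) - bs n) (fun n => ?_) hsum
    rw [dist_comm, dist_eq_norm]
    exact norm_step w hw n
  obtain ⟨B, hB⟩ := cauchySeq_tendsto_of_complete hcau
  have hB1 : Tendsto (fun k => Bs w (k + 1)) atTop (𝓝 B) := hB.comp (tendsto_add_atTop_nat 1)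
  have hB2 : Tendsto (fun k => (1 / 2 : ℂ) • (w + Bs w k * Bs w k)) atTop
      (𝓝 ((1 / 2 : ℂ) • (w + B * B))) :=
    (tendsto_const_nhds.add (hB.mul hB)).const_smul _
  have heq : B = (1 / 2 : ℂ) • (w + B * B) := tendsto_nhds_unique hB1 hB2
  have heq2 : B + B = w + B * B := by
    have h1 : B + B = (2 : ℂ) • B := (two_smul ℂ B).symm
    rw [h1]
    nth_rewrite 1 [heq]
    rw [smul_smul]
    norm_num
  refine ⟨B, ?_, ?_, ?_⟩
  · exact le_of_tendsto hB.norm (Eventually.of_forall fun k => (norm_Bs w hw k).trans (bs_mem k).2)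
  · have h2 : (1 - B) * (1 - B) = 1 - (B + B) + B * B := by
      rw [sub_mul, mul_sub, mul_sub, mul_one, one_mul, mul_one]
      abel
    rw [h2, heq2]
    abel
  · intro P hP h0 hstep
    refine hP.mem_of_tendsto hB (Eventually.of_forall fun k => ?_)
    induction k with
    | zero => exact h0
    | succ k ih => exact hstep _ ih

end Pool.Agent.Helper951_oc
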