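import Pool.Agent.Helper951_oc.FA
import Pool.Agent.Helper951_oc.SQRT
import Pool.Agent.Helper951_oc.EIG

/-! Project OC (MP_3d0876_an), part FB: the elements `S`, `A = |S|`, `C = √A`. -/

set_option linter.unusedSectionVars false

namespace Pool.Agent.Helper951_oc

open scoped ENNReal InnerProductSpace
open Filter

variable {G : Type*} [Group G]

namespace FBx

theorem Lam_dl_apply (g : G) (ξ : L2 G) (s : G) :
    (Lam (dl g) ξ : G → ℂ) s = (ξ : G → ℂ) (g⁻¹ * s) := by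
  have h : Lam (dl g) = trans 2 hp2 (Equiv.mulLeft g⁻¹) := cop_sgl (G := G) hp2 g
  rw [h]
  rfl

theorem Lam_zero : Lam (0 : A1 G) = 0 := map_zero (LamL (G := G))

theorem sa_zero : SA (0 : A1 G) := by
  unfold SA
  rw [Lam_zero, star_zero]

theorem sa_one : SA (1 : A1 G) := by
  unfold SA
  rw [Lam_one, star_one]

theorem sa_sub {a b : A1 G} (ha : SA a) (hb : SA b) : SA (a - b) := by
  unfold SA at *
  rw [Lam_sub, star_sub, ha, hb]

theorem sa_step {w b : A1 G} (hw : SA w) (hb : SA b) : SA ((1 / 2 : ℂ) • (w + b * b)) := by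
  unfold SA at *
  rw [Lam_smul, Lam_add, Lam_mul, star_smul, star_add, star_mul, hw, hb]
  congr 1
  simp

theorem sa_closed : IsClosed {b : A1 G | SA b} :=
  isClosed_eq (continuous_star.comp continuous_Lam) continuous_Lam

/-- the combination of `dl x` and `dl x⁻¹` -/
noncomputable def cb (x : G) (c d e : ℂ) : A1 G := c • (d • dl x + e • dl x⁻¹)

theorem star_cb (x : G) (c d e : ℂ) :
    star (Lam (cb x c d e)) = Lam (cb x (star c) (star e) (star d)) := by
  unfold cb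
  rw [Lam_smul, Lam_add, Lam_smul, Lam_smul, star_smul, star_add, star_smul, star_smul,
    star_Lam_dl, star_Lam_dl, inv_inv, Lam_smul, Lam_add, Lam_smul, Lam_smul, add_comm]

theorem cb_mul (x : G) (c d e c' d' e' : ℂ) :
    cb x c d e * cb x c' d' e' = (c * c') • ((d * d') • dl (x * x) + (e * e') • dl (x⁻¹ * x⁻¹)
      + (d * e' + e * d') • (1 : A1 G)) := by
  unfold cb
  have h1 : dl x * dl x⁻¹ = (1 : A1 G) := by rw [dl_mul, mul_inv_cancel, dl_one]
  have h2 : dl x⁻¹ * dl x = (1 : A1 G) := by rw [dl_mul, inv_mul_cancel, dl_one]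
  rw [smul_mul_smul_comm, add_mul, mul_add, mul_add, smul_mul_smul_comm, smul_mul_smul_comm,
    smul_mul_smul_comm, smul_mul_smul_comm, h1, h2, dl_mul, dl_mul, add_smul]
  congr 1
  abel

theorem cb_comm (x : G) (c d e c' d' e' : ℂ) :
    cb x c d e * cb x c' d' e' = cb x c' d' e' * cb x c d e := by
  rw [cb_mul, cb_mul, mul_comm c c', mul_comm d d', mul_comm e e', mul_comm d e', mul_comm e d',
    add_comm (e' * d) (d' * e)]

theorem conj_two : (starRingEnd ℂ) (2 : ℂ) = 2 := map_ofNat (starRingEnd ℂ) 2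

theorem star_exp : star (Complex.exp (Complex.I / 2)) = Complex.exp (-(Complex.I / 2)) := by
  have : star (Complex.exp (Complex.I / 2)) = (starRingEnd ℂ) (Complex.exp (Complex.I / 2)) := rfl
  rw [this, ← Complex.exp_conj]
  congr 1
  rw [map_div₀, Complex.conj_I, conj_two, neg_div]

theorem star_exp' : star (Complex.exp (-(Complex.I / 2))) = Complex.exp (Complex.I / 2) := by
  rw [← star_exp, star_star]

theorem exp_mul : Complex.exp (Complex.I / 2) * Complex.exp (-(Complex.I / 2)) = 1 := by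
  rw [← Complex.exp_add, add_neg_cancel, Complex.exp_zero]

theorem norm_e1 : ‖Complex.exp (Complex.I / 2)‖ = 1 := by
  rw [Complex.norm_exp]
  simp

theorem norm_e2 : ‖Complex.exp (-(Complex.I / 2))‖ = 1 := by
  rw [Complex.norm_exp]
  simp

end FBx

open FBx in
/-- Proof. `ζ = exp(i/2)`, `S = (ζ x - ζ⁻¹ x⁻¹)/(2i)`, `c₀ = (ζ x + ζ⁻¹ x⁻¹)/2`, `w = c₀ c₀`; `‖w‖ ≤ 1`,
`S S = 1 - w`, `w S = S w`, `w`, `S` self-adjoint (`star_Lam_dl`). `sqrt_lemma w` gives `B`; `A = 1 - B`,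
`A A = 1 - w = S S`; with `P = {b | SA b}` and `P = {b | b S = S b}` (closed, contain `0`, stable)
`B` is self-adjoint and commutes with `S`; `‖B‖ ≤ 1`, so `sqrt_lemma B` gives `B₂`, `C = 1 - B₂`,
`C C = 1 - B = A`, `SA C` by `P = {b | SA b}` again.
Kernel: `Lam A ξ = 0` gives `Lam S (Lam S ξ) = 0`, so `‖Lam S ξ‖² = 0`, `Lam S ξ = 0`, that is
`ζ ξ(x⁻¹ s) = ζ⁻¹ ξ(x s)` for all `s`; so `ξ((x x)⁻¹ s) = exp(-i) ξ(s)`, and `ξ = 0` by `eig` and
`exp_I_not_root`. -/
theorem data (x : G) : ∃ S A C : A1 G, SA S ∧ SA A ∧ SA C ∧ C * C = A ∧ A * A = S * S ∧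
    A * S = S * A ∧
    S = (2 * Complex.I)⁻¹ • (Complex.exp (Complex.I / 2) • dl x
      - Complex.exp (-(Complex.I / 2)) • dl x⁻¹) ∧
    (∀ ξ : L2 G, Lam A ξ = 0 → ξ = 0) := by
  set ζ : ℂ := Complex.exp (Complex.I / 2) with hζ
  set ζ' : ℂ := Complex.exp (-(Complex.I / 2)) with hζ'
  have hzz : ζ * ζ' = 1 := exp_mul
  have hzs : star ζ = ζ' := star_exp
  have hzs' : star ζ' = ζ := star_exp'
  -- the elements
  set S : A1 G := cb x (2 * Complex.I)⁻¹ ζ (-ζ') with hSd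
  set c₀ : A1 G := cb x (2 : ℂ)⁻¹ ζ ζ' with hc₀
  set w : A1 G := c₀ * c₀ with hwd
  have hI : Complex.I * Complex.I = -1 := Complex.I_mul_I
  have hSA : SA S := by
    unfold SA
    rw [hSd, star_cb, star_neg, hzs, hzs']
    have h1 : star ((2 * Complex.I)⁻¹ : ℂ) = -(2 * Complex.I)⁻¹ := by
      have : star ((2 * Complex.I)⁻¹ : ℂ) = (starRingEnd ℂ) ((2 * Complex.I)⁻¹) := rfl
      rw [this, map_inv₀, map_mul, Complex.conj_I, conj_two, mul_neg, inv_neg]
    rw [h1]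
    congr 1
    unfold cb
    rw [neg_smul, ← smul_neg, neg_add, ← neg_smul, ← neg_smul, neg_neg]
  have hc₀A : SA c₀ := by
    unfold SA
    rw [hc₀, star_cb, hzs, hzs']
    have h1 : star ((2 : ℂ)⁻¹) = (2 : ℂ)⁻¹ := by
      have : star ((2 : ℂ)⁻¹) = (starRingEnd ℂ) ((2 : ℂ)⁻¹) := rfl
      rw [this, map_inv₀, conj_two]
    rw [h1]
  have hwA : SA w := by
    unfold SA at *
    rw [hwd, Lam_mul, star_mul, hc₀A]
  have hc₀n : ‖c₀‖ ≤ 1 := by
    rw [hc₀]
    unfold cb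
    have n1 : ‖ζ • dl x‖ ≤ 1 := by
      rw [norm_smul, norm_e1, one_mul]
      exact norm_dl_le x
    have n2 : ‖ζ' • dl x⁻¹‖ ≤ 1 := by
      rw [norm_smul, norm_e2, one_mul]
      exact norm_dl_le x⁻¹
    rw [norm_smul]
    have n3 : ‖(2 : ℂ)⁻¹‖ = 1 / 2 := by
      rw [norm_inv]
      norm_num
    rw [n3]
    have n4 := norm_add_le (ζ • dl x) (ζ' • dl x⁻¹)
    linarith
  have hwn : ‖w‖ ≤ 1 := by
    refine (norm_mul_le _ _).trans ?_
    calc ‖c₀‖ * ‖c₀‖ ≤ 1 * 1 := mul_le_mul hc₀n hc₀n (norm_nonneg _) zero_le_one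
      _ = 1 := one_mul 1
  have hSS : S * S = 1 - w := by
    rw [hwd, hSd, hc₀, cb_mul, cb_mul]
    have k1 : ((2 * Complex.I)⁻¹ * (2 * Complex.I)⁻¹ : ℂ) = -(1 / 4) := by
      rw [← mul_inv]
      have : (2 * Complex.I * (2 * Complex.I) : ℂ) = -4 := by
        have : (2 * Complex.I * (2 * Complex.I) : ℂ) = 4 * (Complex.I * Complex.I) := by ring
        rw [this, hI]
        ring
      rw [this]
      norm_num
    have k2 : ((2 : ℂ)⁻¹ * 2⁻¹) = 1 / 4 := by norm_num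
    have k3 : ζ * -ζ' + -ζ' * ζ = -2 := by
      have : ζ * -ζ' + -ζ' * ζ = -(2 * (ζ * ζ')) := by ring
      rw [this, hzz]
      ring
    have k4 : ζ * ζ' + ζ' * ζ = 2 := by
      have : ζ * ζ' + ζ' * ζ = 2 * (ζ * ζ') := by ring
      rw [this, hzz]
      ring
    have k5 : -ζ' * -ζ' = ζ' * ζ' := by ring
    rw [k1, k2, k3, k4, k5]
    generalize (ζ * ζ) • dl (x * x) + (ζ' * ζ') • dl (x⁻¹ * x⁻¹) = X
    rw [smul_add, smul_add, smul_smul, smul_smul, neg_smul]
    have k6 : (-(1 / 4) * -2 : ℂ) = 1 / 2 := by norm_num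
    have k7 : (1 / 4 * 2 : ℂ) = 1 / 2 := by norm_num
    rw [k6, k7]
    have k8 : (1 : A1 G) = (1 / 2 : ℂ) • (1 : A1 G) + (1 / 2 : ℂ) • (1 : A1 G) := by
      rw [← add_smul]
      norm_num
    nth_rewrite 2 [k8]
    abel
  have hwS : w * S = S * w := by
    have h1 : c₀ * S = S * c₀ := by rw [hc₀, hSd]; exact cb_comm x _ _ _ _ _ _
    rw [hwd, mul_assoc, h1, ← mul_assoc, h1, mul_assoc]
  obtain ⟨B, hBn, hBB, hBP⟩ := sqrt_lemma w hwn
  have hBA : SA B := hBP _ sa_closed sa_zero (fun b hb => sa_step hwA hb)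
  have hBS : B * S = S * B := by
    apply hBP {b : A1 G | b * S = S * b}
    · exact isClosed_eq (continuous_id.mul continuous_const) (continuous_const.mul continuous_id)
    · change (0 : A1 G) * S = S * 0
      rw [zero_mul, mul_zero]
    · intro b hb
      have hb' : b * S = S * b := hb
      change ((1 / 2 : ℂ) • (w + b * b)) * S = S * ((1 / 2 : ℂ) • (w + b * b))
      have hbb : b * b * S = S * (b * b) := by
        rw [mul_assoc b b S, hb', ← mul_assoc b S b, hb', mul_assoc S b b]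
      rw [smul_mul_assoc, mul_smul_comm, add_mul, mul_add, hwS, hbb]
  obtain ⟨B₂, -, hB2, hB2P⟩ := sqrt_lemma B hBn
  have hB2A : SA B₂ := hB2P _ sa_closed sa_zero (fun b hb => sa_step hBA hb)
  have hAA : (1 - B) * (1 - B) = S * S := by rw [hBB, hSS]
  clear_value w
  refine ⟨S, 1 - B, 1 - B₂, hSA, sa_sub sa_one hBA, sa_sub sa_one hB2A, hB2, hAA, ?_, ?_, ?_⟩
  · rw [sub_mul, mul_sub, one_mul, mul_one, hBS]
  · rw [hSd]
    unfold cb
    rw [neg_smul, ← sub_eq_add_neg]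
  · intro ξ hξ
    have h1 : Lam S (Lam S ξ) = 0 := by
      have e1 : Lam (S * S) ξ = Lam S (Lam S ξ) := by rw [Lam_mul]; rfl
      have e2 : Lam ((1 - B) * (1 - B)) ξ = Lam (1 - B) (Lam (1 - B) ξ) := by rw [Lam_mul]; rfl
      rw [← e1, ← hAA, e2, hξ, map_zero]
    have h2 : Lam S ξ = 0 := by
      have e1 : ⟪Lam S ξ, Lam S ξ⟫_ℂ = 0 := by
        have e2 : ⟪Lam S ξ, Lam S ξ⟫_ℂ = ⟪ξ, (star (Lam S)) (Lam S ξ)⟫_ℂ := by
          rw [ContinuousLinearMap.star_eq_adjoint, ContinuousLinearMap.adjoint_inner_right]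
        have hSA' : star (Lam S) = Lam S := hSA
        rw [e2, hSA', h1, inner_zero_right]
      exact inner_self_eq_zero.1 e1
    have h3 : ∀ s : G, ζ * (ξ : G → ℂ) (x⁻¹ * s) = ζ' * (ξ : G → ℂ) (x * s) := by
      intro s
      have e1 : (Lam S ξ : G → ℂ) s = (2 * Complex.I)⁻¹ * (ζ * (ξ : G → ℂ) (x⁻¹ * s)
          + -ζ' * (ξ : G → ℂ) (x * s)) := by
        rw [hSd]
        unfold cb
        rw [Lam_smul, Lam_add, Lam_smul, Lam_smul]
        have e2 := Lam_dl_apply x ξ s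
        have e3 := Lam_dl_apply x⁻¹ ξ s
        rw [inv_inv] at e3
        rw [← e2, ← e3]
        rfl
      rw [h2] at e1
      have e4 : (2 * Complex.I)⁻¹ * (ζ * (ξ : G → ℂ) (x⁻¹ * s)
          + -ζ' * (ξ : G → ℂ) (x * s)) = 0 := e1.symm
      have e5 : ((2 * Complex.I)⁻¹ : ℂ) ≠ 0 := by
        apply inv_ne_zero
        exact mul_ne_zero two_ne_zero Complex.I_ne_zero
      have e6 := (mul_eq_zero.1 e4).resolve_left e5
      linear_combination e6
    apply eig (x * x) (Complex.exp (-Complex.I))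
    · rw [Complex.norm_exp]
      simp
    · exact exp_I_not_root
    · intro s
      have e1 := h3 (x⁻¹ * s)
      have e2 : x * (x⁻¹ * s) = s := by group
      have e3 : (x * x)⁻¹ * s = x⁻¹ * (x⁻¹ * s) := by group
      rw [e2] at e1
      rw [e3]
      have e4 : Complex.exp (-Complex.I) = ζ' * ζ' := by
        rw [hζ', ← Complex.exp_add]
        congr 1
        ring
      rw [e4]
      calc (ξ : G → ℂ) (x⁻¹ * (x⁻¹ * s)) = (ζ * ζ') * (ξ : G → ℂ) (x⁻¹ * (x⁻¹ * s)) := by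
            rw [hzz, one_mul]
        _ = ζ' * (ζ * (ξ : G → ℂ) (x⁻¹ * (x⁻¹ * s))) := by ring
        _ = ζ' * (ζ' * (ξ : G → ℂ) s) := by rw [e1]
        _ = ζ' * ζ' * (ξ : G → ℂ) s := by ring

end Pool.Agent.Helper951_oc
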