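import Pool.Agent.Helper951_oc.FA

/-! Project OC (MP_3d0876_an), part FC: the trace computation. -/

set_option linter.unusedSectionVars false

namespace Pool.Agent.Helper951_oc

open scoped ENNReal InnerProductSpace
open Filter

variable {G : Type*} [Group G]

/-- Proof. Suppose `x y ≠ y x`. Adding the two equations, `A y A = S y S`; multiply by `y⁻¹` on the
left: `A' A = S' S` with `A' = y⁻¹ A y`, `S' = y⁻¹ S y`, and `A' = C' C'`, `C' = y⁻¹ C y`.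
Trace `τ(a) = ⟪δ, Lam a δ⟫`, `δ = sgl 2 1`: `τ(A' A) = τ(C' C' C C) = τ(C C' C' C)` (`trace_prop`)
`= ‖Lam C' (Lam C δ)‖²` (`C`, `C'` self-adjoint: `star (Lam (dl y)) = Lam (dl y⁻¹)`), and this is `> 0`:
`Lam C` is injective (`Lam A = Lam C * Lam C` is), and so is `Lam C'` (conjugate by a unitary), `δ ≠ 0`.
`S' S = -(1/4) (ζ x' - ζ⁻¹ x'⁻¹)(ζ x - ζ⁻¹ x⁻¹)` with `x' = y⁻¹ x y ≠ x`, `ζ = exp(i/2)`, so
`τ(S' S) = -(1/4) (ζ² [x' x = 1] + ζ⁻² [x'⁻¹ x⁻¹ = 1] - [x' x⁻¹ = 1] - [x'⁻¹ x = 1])`; the last two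
brackets are `0`, the first two are equal, so `τ(S' S)` is `0` or `-(1/2) cos 1 < 0`. Contradiction.
(`τ(dl g) = 1` if `g = 1`, else `0`: `inner_delta`, `cop_sgl`, `trans_sgl`, `sgl_apply`.) -/
theorem trace_contra (x y : G) (S A C : A1 G) (hS : SA S) (hA : SA A) (hC : SA C)
    (hCC : C * C = A) (hSdef : S = (2 * Complex.I)⁻¹ • (Complex.exp (Complex.I / 2) • dl x
      - Complex.exp (-(Complex.I / 2)) • dl x⁻¹))
    (hker : ∀ ξ : L2 G, Lam A ξ = 0 → ξ = 0)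
    (h1 : (A - S) * dl y * (A + S) = 0) (h2 : (A + S) * dl y * (A - S) = 0) : x * y = y * x := by
  classical
  by_contra hne
  have hyy : dl y⁻¹ * dl y = (1 : A1 G) := by rw [dl_mul, inv_mul_cancel, dl_one]
  have hyy' : dl y * dl y⁻¹ = (1 : A1 G) := by rw [dl_mul, mul_inv_cancel, dl_one]
  have hASA : A * dl y * A = S * dl y * S := by
    have h4 : (2 : ℂ) • (A * dl y * A - S * dl y * S) =
        (A - S) * dl y * (A + S) + (A + S) * dl y * (A - S) := by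
      rw [two_smul]
      noncomm_ring
    rw [h1, h2, add_zero] at h4
    have h5 := (smul_eq_zero.1 h4).resolve_left two_ne_zero
    exact sub_eq_zero.1 h5
  obtain ⟨C', hC'⟩ : ∃ C' : A1 G, C' = dl y⁻¹ * C * dl y := ⟨_, rfl⟩
  have hC'2 : C' * C' = dl y⁻¹ * A * dl y := by
    have e1 : C' * C' = dl y⁻¹ * C * (dl y * dl y⁻¹) * C * dl y := by
      rw [hC']; noncomm_ring
    rw [e1, hyy', mul_one, mul_assoc (dl y⁻¹) C C, hCC]
  have hprod : C' * C' * C * C = dl y⁻¹ * S * dl y * S := by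
    have e1 : C' * C' * C * C = C' * C' * (C * C) := by noncomm_ring
    rw [e1, hC'2, hCC]
    have e2 : dl y⁻¹ * A * dl y * A = dl y⁻¹ * (A * dl y * A) := by noncomm_ring
    rw [e2, hASA]
    noncomm_ring
  have hC'SA : star (Lam C') = Lam C' := by
    have hC0 : star (Lam C) = Lam C := hC
    rw [hC', Lam_mul, Lam_mul, star_mul, star_mul, star_Lam_dl, star_Lam_dl, hC0, inv_inv,
      mul_assoc]
  -- the trace of `C' C' C C`
  have hτ1 : ⟪(sgl 2 1 : L2 G), Lam (C' * C' * C * C) (sgl 2 1)⟫_ℂ =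
      ⟪Lam C' (Lam C (sgl 2 1)), Lam C' (Lam C (sgl 2 1))⟫_ℂ := by
    have e1 : Lam (C' * C' * C * C) (sgl 2 1) = Lam (C' * C' * C) (Lam C (sgl 2 1)) := by
      rw [Lam_mul]; rfl
    rw [e1, trace_prop _ (Lam_mem _) _ (Lam_mem _)]
    have e2 : Lam (C' * C' * C) (sgl 2 1) = Lam C' (Lam C' (Lam C (sgl 2 1))) := by
      rw [Lam_mul, Lam_mul]; rfl
    rw [e2]
    have hC0 : star (Lam C) = Lam C := hC
    have e3 : ∀ u v : L2 G, ⟪u, Lam C v⟫_ℂ = ⟪Lam C u, v⟫_ℂ := by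
      intro u v
      have := ContinuousLinearMap.adjoint_inner_left (Lam C) v u
      rw [← ContinuousLinearMap.star_eq_adjoint, hC0] at this
      exact this.symm
    have e4 : ∀ u v : L2 G, ⟪u, Lam C' v⟫_ℂ = ⟪Lam C' u, v⟫_ℂ := by
      intro u v
      have := ContinuousLinearMap.adjoint_inner_left (Lam C') v u
      rw [← ContinuousLinearMap.star_eq_adjoint, hC'SA] at this
      exact this.symm
    rw [e3, e4]
  have hkC : ∀ ξ : L2 G, Lam C ξ = 0 → ξ = 0 := by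
    intro ξ h
    apply hker
    rw [← hCC, Lam_mul]
    change Lam C (Lam C ξ) = 0
    rw [h, map_zero]
  have hky : ∀ (g : G) (ξ : L2 G), Lam (dl g) ξ = 0 → ξ = 0 := by
    intro g ξ h
    have e1 : Lam (dl g⁻¹ * dl g) ξ = ξ := by
      rw [dl_mul, inv_mul_cancel, dl_one, Lam_one]; rfl
    rw [← e1, Lam_mul]
    change Lam (dl g⁻¹) (Lam (dl g) ξ) = 0
    rw [h, map_zero]
  have hv : Lam C' (Lam C (sgl 2 1)) ≠ 0 := by
    intro h
    rw [hC', Lam_mul, Lam_mul] at h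
    have h3 : Lam (dl y⁻¹) (Lam C (Lam (dl y) (Lam C (sgl 2 1)))) = 0 := h
    have h4 := hkC _ (hky _ _ (hkC _ (hky _ _ h3)))
    have h5 := norm_delta (G := G)
    rw [h4, norm_zero] at h5
    exact zero_ne_one h5
  have hpos : 0 < ‖Lam C' (Lam C (sgl 2 1))‖ := norm_pos_iff.2 hv
  have hτ2 : ⟪(sgl 2 1 : L2 G), Lam (C' * C' * C * C) (sgl 2 1)⟫_ℂ =
      ((‖Lam C' (Lam C (sgl 2 1))‖ ^ 2 : ℝ) : ℂ) := by
    rw [hτ1, inner_self_eq_norm_sq_to_K]
    push_cast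
    rfl
  -- the trace of `S' S`
  have hτdl : ∀ g : G, ⟪(sgl 2 1 : L2 G), Lam (dl g) (sgl 2 1)⟫_ℂ = if g = 1 then 1 else 0 := by
    intro g
    rw [inner_Lam]
    have e1 : cf (dl g) (1 : G) = (sgl 1 g : G → ℂ) 1 := rfl
    rw [e1, sgl_apply]
    by_cases h : g = 1
    · rw [if_pos h.symm, if_pos h]
    · rw [if_neg (fun h' => h h'.symm), if_neg h]
  obtain ⟨ζ, hζ⟩ : ∃ ζ : ℂ, ζ = Complex.exp (Complex.I / 2) := ⟨_, rfl⟩
  obtain ⟨η, hη⟩ : ∃ η : ℂ, η = Complex.exp (-(Complex.I / 2)) := ⟨_, rfl⟩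
  rw [← hζ, ← hη] at hSdef
  have hSS : dl y⁻¹ * S * dl y * S = ((2 * Complex.I)⁻¹ * (2 * Complex.I)⁻¹) •
      ((ζ * ζ) • dl (y⁻¹ * x * y * x) - (ζ * η) • dl (y⁻¹ * x * y * x⁻¹)
        - (η * ζ) • dl (y⁻¹ * x⁻¹ * y * x) + (η * η) • dl (y⁻¹ * x⁻¹ * y * x⁻¹)) := by
    rw [hSdef]
    simp only [← dl_mul]
    simp only [mul_sub, sub_mul, mul_smul_comm, smul_mul_assoc]
    module
  have hτ3 : ⟪(sgl 2 1 : L2 G), Lam (dl y⁻¹ * S * dl y * S) (sgl 2 1)⟫_ℂ =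
      ((2 * Complex.I)⁻¹ * (2 * Complex.I)⁻¹) *
      ((ζ * ζ) * (if y⁻¹ * x * y * x = 1 then 1 else 0)
        - (ζ * η) * (if y⁻¹ * x * y * x⁻¹ = 1 then 1 else 0)
        - (η * ζ) * (if y⁻¹ * x⁻¹ * y * x = 1 then 1 else 0)
        + (η * η) * (if y⁻¹ * x⁻¹ * y * x⁻¹ = 1 then 1 else 0)) := by
    rw [hSS, Lam_smul, Lam_add, Lam_sub, Lam_sub, Lam_smul, Lam_smul, Lam_smul, Lam_smul]
    simp only [smul_apply, add_apply,
      sub_apply, inner_smul_right, inner_add_right, inner_sub_right, hτdl]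
  have c1 : ¬ (y⁻¹ * x * y * x⁻¹ = 1) := by
    intro h
    apply hne
    have h3 : y⁻¹ * x * y = x := mul_inv_eq_one.1 h
    calc x * y = y * (y⁻¹ * x * y) := by group
      _ = y * x := by rw [h3]
  have c2 : ¬ (y⁻¹ * x⁻¹ * y * x = 1) := by
    intro h
    apply c1
    have h3 : (y⁻¹ * x⁻¹ * y * x)⁻¹ = 1 := by rw [h, inv_one]
    have h4 : x⁻¹ * (y⁻¹ * x * y) = 1 := by rw [← h3]; group
    have h5 : y⁻¹ * x * y = x := (inv_mul_eq_one.1 h4).symm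
    rw [h5, mul_inv_cancel]
  have c3 : (y⁻¹ * x * y * x = 1) ↔ (y⁻¹ * x⁻¹ * y * x⁻¹ = 1) := by
    constructor
    · intro h
      have h3 : y⁻¹ * x * y = x⁻¹ := eq_inv_of_mul_eq_one_left h
      have h4 : y⁻¹ * x⁻¹ * y = x := by
        calc y⁻¹ * x⁻¹ * y = (y⁻¹ * x * y)⁻¹ := by group
          _ = x := by rw [h3, inv_inv]
      rw [h4, mul_inv_cancel]
    · intro h
      have h3 : y⁻¹ * x⁻¹ * y = x := mul_inv_eq_one.1 h
      have h4 : y⁻¹ * x * y = x⁻¹ := by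
        calc y⁻¹ * x * y = (y⁻¹ * x⁻¹ * y)⁻¹ := by group
          _ = x⁻¹ := by rw [h3]
      rw [h4, inv_mul_cancel]
  rw [if_neg c1, if_neg c2, ← hprod, hτ2] at hτ3
  have hcos : ζ * ζ + η * η = ((2 * Real.cos 1 : ℝ) : ℂ) := by
    rw [hζ, hη, ← Complex.exp_add, ← Complex.exp_add]
    push_cast
    rw [Complex.cos]
    have e1 : Complex.I / 2 + Complex.I / 2 = 1 * Complex.I := by ring
    have e2 : -(Complex.I / 2) + -(Complex.I / 2) = -1 * Complex.I := by ring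
    rw [e1, e2]
    ring
  have hI : (2 * Complex.I)⁻¹ * (2 * Complex.I)⁻¹ = ((-1 / 4 : ℝ) : ℂ) := by
    rw [← mul_inv]
    have e1 : (2 * Complex.I) * (2 * Complex.I) = -4 := by
      have := Complex.I_mul_I
      linear_combination 4 * this
    rw [e1]
    push_cast
    norm_num
  by_cases c4 : y⁻¹ * x * y * x = 1
  · rw [if_pos c4, if_pos (c3.1 c4)] at hτ3
    have h6 : ((‖Lam C' (Lam C (sgl 2 1))‖ ^ 2 : ℝ) : ℂ) = ((-1 / 4 * (2 * Real.cos 1) : ℝ) : ℂ) := by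
      rw [hτ3, hI, Complex.ofReal_mul, ← hcos]
      ring
    have h7 := Complex.ofReal_injective h6
    have h8 := Real.cos_one_pos
    nlinarith [sq_nonneg ‖Lam C' (Lam C (sgl 2 1))‖]
  · rw [if_neg c4, if_neg (fun h => c4 (c3.2 h))] at hτ3
    have h6 : ((‖Lam C' (Lam C (sgl 2 1))‖ ^ 2 : ℝ) : ℂ) = ((0 : ℝ) : ℂ) := by
      rw [hτ3]
      push_cast
      ring
    have h7 := Complex.ofReal_injective h6
    have h8 : 0 < ‖Lam C' (Lam C (sgl 2 1))‖ ^ 2 := by positivity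
    linarith

end Pool.Agent.Helper951_oc
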