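import Mathlib

/-! Project OC (MP_3d0876_an), part PR: range projections in the commutant of a self-adjoint set. -/

namespace Pool.Agent.Helper951_oc

open scoped InnerProductSpace

variable {H : Type*} [NormedAddCommGroup H] [InnerProductSpace ℂ H] [CompleteSpace H]

/-- The orthogonal projection `p` onto the closure of the range of `T`, where `T` commutes with a
self-adjoint set `R` of operators, again commutes with `R`.
Proof: closure of range `T` is invariant under every `r ∈ R` and every `star r`, so its orthogonal
projection commutes with `r`. -/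
theorem range_proj (R : Set (H →L[ℂ] H)) (hR : ∀ r ∈ R, star r ∈ R)
    (T : H →L[ℂ] H) (hT : T ∈ Set.centralizer R) :
    ∃ p ∈ Set.centralizer R, p * p = p ∧ star p = p ∧ p * T = T ∧
      ∀ X : H →L[ℂ] H, X * T = 0 → X * p = 0 := by
  set K : Submodule ℂ H := (LinearMap.range (T : H →ₗ[ℂ] H)).topologicalClosure with hK
  have : CompleteSpace K :=
    (LinearMap.range (T : H →ₗ[ℂ] H)).isClosed_topologicalClosure.completeSpace_coe
  have hTK : ∀ x, T x ∈ K := fun x =>
    Submodule.le_topologicalClosure _ (LinearMap.mem_range_self (T : H →ₗ[ℂ] H) x)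
  have hcl : ∀ k, k ∈ K → k ∈ closure (Set.range T) := by
    intro k hk
    have h1 : (K : Set H) = closure ((LinearMap.range (T : H →ₗ[ℂ] H) : Submodule ℂ H) : Set H) :=
      Submodule.topologicalClosure_coe _
    have h2 : k ∈ (K : Set H) := hk
    rw [h1] at h2
    have h3 : ((LinearMap.range (T : H →ₗ[ℂ] H) : Submodule ℂ H) : Set H) = Set.range T := by
      ext x
      simp
    rwa [h3] at h2
  have hinv : ∀ r ∈ R, ∀ k ∈ K, r k ∈ K := by
    intro r hr k hk
    have h1 : r k ∈ closure (K : Set H) := by
      refine map_mem_closure r.continuous (hcl k hk) ?_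
      rintro y ⟨x, rfl⟩
      have h2 : r (T x) = T (r x) := by
        have h3 := hT r hr
        have h4 := congrArg (fun S : H →L[ℂ] H => S x) h3
        simpa using h4
      rw [h2]
      exact hTK _
    have h2 : IsClosed (K : Set H) :=
      (LinearMap.range (T : H →ₗ[ℂ] H)).isClosed_topologicalClosure
    rw [h2.closure_eq] at h1
    exact h1
  refine ⟨K.starProjection, ?_, ?_, ?_, ?_, ?_⟩
  · intro r hr
    ext x
    have h1 : K.starProjection (r x) = r (K.starProjection x) := by
      apply Submodule.eq_starProjection_of_mem_of_inner_eq_zero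
      · exact hinv r hr _ (K.starProjection_apply_mem x)
      · intro w hw
        rw [← map_sub]
        have h2 : (ContinuousLinearMap.adjoint r) w ∈ K := hinv _ (hR r hr) w hw
        rw [← ContinuousLinearMap.adjoint_inner_right]
        exact Submodule.starProjection_inner_eq_zero x _ h2
    simp only [mul_apply_eq_comp]
    exact h1.symm
  · exact K.isIdempotentElem_starProjection
  · exact isSelfAdjoint_starProjection K
  · ext x
    simp only [mul_apply_eq_comp]
    exact Submodule.starProjection_eq_self_iff.2 (hTK x)
  · intro X hX
    ext x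
    simp only [mul_apply_eq_comp, zero_apply]
    have h1 : Set.EqOn X (0 : H →L[ℂ] H) (closure (Set.range T)) := by
      apply Set.EqOn.closure
      · rintro y ⟨z, rfl⟩
        have h4 := congrArg (fun S : H →L[ℂ] H => S z) hX
        simpa using h4
      · exact X.continuous
      · exact (0 : H →L[ℂ] H).continuous
    exact h1 (hcl _ (K.starProjection_apply_mem x))

end Pool.Agent.Helper951_oc
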