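import Mathlib

/-! Project OC (MP_3d0876_an), part RES: resolvents of `T T*`. -/

namespace Pool.Agent.Helper951_oc

open scoped InnerProductSpace

variable {H : Type*} [NormedAddCommGroup H] [InnerProductSpace ℂ H] [CompleteSpace H]

namespace RESx

omit [CompleteSpace H] in
/-- scalar part of the inner product -/
theorem re_smul (ε : ℝ) (η : H) : RCLike.re ⟪(ε : ℂ) • η, η⟫_ℂ = ε * ‖η‖ ^ 2 := by
  rw [inner_smul_left, inner_self_eq_norm_sq_to_K]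
  simp [← Complex.ofReal_pow]

/-- the quadratic form of `T T* + ε` -/
theorem key (T : H →L[ℂ] H) (ε : ℝ) (η : H) :
    RCLike.re ⟪(T * star T + (ε : ℂ) • (1 : H →L[ℂ] H)) η, η⟫_ℂ =
      ‖(star T) η‖ ^ 2 + ε * ‖η‖ ^ 2 := by
  have h1 : (T * star T + (ε : ℂ) • (1 : H →L[ℂ] H)) η = T ((star T) η) + (ε : ℂ) • η := by
    simp
  rw [h1, inner_add_left, map_add, re_smul]
  congr 1
  rw [ContinuousLinearMap.star_eq_adjoint, ← ContinuousLinearMap.adjoint_inner_right,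
    inner_self_eq_norm_sq]

/-- if `(T T* + ε) η = ξ` then `ε ‖η‖ ≤ ‖ξ‖` -/
theorem bd1 (T : H →L[ℂ] H) (ε : ℝ) (ξ η : H)
    (h : (T * star T + (ε : ℂ) • (1 : H →L[ℂ] H)) η = ξ) : ε * ‖η‖ ≤ ‖ξ‖ := by
  have h1 := key T ε η
  rw [h] at h1
  have h2 : RCLike.re ⟪ξ, η⟫_ℂ ≤ ‖ξ‖ * ‖η‖ := re_inner_le_norm ξ η
  have h3 : 0 ≤ ‖(star T) η‖ ^ 2 := sq_nonneg _
  have h4 : ε * ‖η‖ ^ 2 ≤ ‖ξ‖ * ‖η‖ := by linarith
  rcases eq_or_lt_of_le (norm_nonneg η) with h5 | h5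
  · rw [← h5, mul_zero]
    exact norm_nonneg _
  · have h6 : (ε * ‖η‖) * ‖η‖ ≤ ‖ξ‖ * ‖η‖ := by
      rw [mul_assoc, ← sq]
      exact h4
    exact le_of_mul_le_mul_right h6 h5

/-- if `(T T* + ε) η = T ζ` then `‖T* η‖² + ε ‖η‖² ≤ ‖ζ‖ ‖T* η‖` -/
theorem bd2 (T : H →L[ℂ] H) (ε : ℝ) (ζ η : H)
    (h : (T * star T + (ε : ℂ) • (1 : H →L[ℂ] H)) η = T ζ) :
    ‖(star T) η‖ ^ 2 + ε * ‖η‖ ^ 2 ≤ ‖ζ‖ * ‖(star T) η‖ := by
  have h1 := key T ε η
  rw [h] at h1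
  rw [← h1, ← ContinuousLinearMap.adjoint_inner_right, ← ContinuousLinearMap.star_eq_adjoint]
  exact re_inner_le_norm _ _

theorem bd3 (T : H →L[ℂ] H) (ε : ℝ) (hε : 0 < ε) (ζ η : H)
    (h : (T * star T + (ε : ℂ) • (1 : H →L[ℂ] H)) η = T ζ) : ‖(star T) η‖ ≤ ‖ζ‖ := by
  have h1 := bd2 T ε ζ η h
  have h2 : 0 ≤ ε * ‖η‖ ^ 2 := by positivity
  rcases eq_or_lt_of_le (norm_nonneg ((star T) η)) with h5 | h5
  · rw [← h5]
    exact norm_nonneg _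
  · have h6 : ‖(star T) η‖ * ‖(star T) η‖ ≤ ‖ζ‖ * ‖(star T) η‖ := by
      rw [← sq]
      linarith
    exact le_of_mul_le_mul_right h6 h5

theorem bd4 (T : H →L[ℂ] H) (ε : ℝ) (hε : 0 < ε) (ζ η : H)
    (h : (T * star T + (ε : ℂ) • (1 : H →L[ℂ] H)) η = T ζ) :
    (ε * ‖η‖) ^ 2 ≤ ε * ‖ζ‖ ^ 2 := by
  have h1 := bd2 T ε ζ η h
  have h3 := bd3 T ε hε ζ η h
  have h4 : 0 ≤ ‖(star T) η‖ ^ 2 := sq_nonneg _
  have h5 : ‖ζ‖ * ‖(star T) η‖ ≤ ‖ζ‖ * ‖ζ‖ := mul_le_mul_of_nonneg_left h3 (norm_nonneg _)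
  have h6 : ε * ‖η‖ ^ 2 ≤ ‖ζ‖ ^ 2 := by
    rw [sq ‖ζ‖]
    linarith
  have h7 : (ε * ‖η‖) ^ 2 = ε * (ε * ‖η‖ ^ 2) := by ring
  rw [h7]
  exact mul_le_mul_of_nonneg_left h6 hε.le

theorem unit (T : H →L[ℂ] H) (ε : ℝ) (hε : 0 < ε) :
    IsUnit (T * star T + (ε : ℂ) • (1 : H →L[ℂ] H)) := by
  have h1 : (-ε) ∉ spectrum ℝ (T * star T) := by
    intro hc
    have h2 : T * star T = star (star T) * star T := by rw [star_star]
    rw [h2] at hc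
    have := spectrum_star_mul_self_nonneg (-ε) hc
    linarith
  rw [spectrum.notMem_iff] at h1
  have h3 : T * star T + (ε : ℂ) • (1 : H →L[ℂ] H) =
      -((algebraMap ℝ (H →L[ℂ] H)) (-ε) - T * star T) := by
    rw [Algebra.algebraMap_eq_smul_one]
    ext x
    simp
  rw [h3]
  exact h1.neg

theorem saA (T : H →L[ℂ] H) (ε : ℝ) :
    star (T * star T + (ε : ℂ) • (1 : H →L[ℂ] H)) = T * star T + (ε : ℂ) • (1 : H →L[ℂ] H) := by
  rw [star_add, star_mul, star_star, star_smul, star_one]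
  simp

end RESx

/-- For `ε > 0` the operator `T T* + ε` is invertible (coercive / Lax-Milgram, or spectrum of a
positive operator), the inverse `E` is self-adjoint, positive, commutes with everything commuting with
`T` and `T*` (here: lies in the centralizer of a self-adjoint set `R`), `‖ε E‖ ≤ 1`, `‖T* E T‖ ≤ 1`.
Last one: with `η = E T ξ`, `(T T* + ε) η = T ξ`, so
`⟨T* η, ξ⟩ = ⟨η, T ξ⟩ = ‖T* η‖² + ε ‖η‖² ≥ ‖T* η‖²`. -/
theorem resolvent (R : Set (H →L[ℂ] H)) (hR : ∀ r ∈ R, star r ∈ R)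
    (T : H →L[ℂ] H) (hT : T ∈ Set.centralizer R) (ε : ℝ) (hε : 0 < ε) :
    ∃ E ∈ Set.centralizer R,
      (T * star T + (ε : ℂ) • (1 : H →L[ℂ] H)) * E = 1 ∧
      E * (T * star T + (ε : ℂ) • (1 : H →L[ℂ] H)) = 1 ∧
      star E = E ∧ (∀ ξ : H, 0 ≤ RCLike.re ⟪ξ, E ξ⟫_ℂ) ∧
      ‖(ε : ℂ) • E‖ ≤ 1 ∧ ‖star T * E * T‖ ≤ 1 := by
  obtain ⟨u, hu⟩ := RESx.unit T ε hε
  set A : H →L[ℂ] H := T * star T + (ε : ℂ) • (1 : H →L[ℂ] H) with hA
  have hAE : A * (↑u⁻¹ : H →L[ℂ] H) = 1 := by rw [← hu]; exact u.mul_inv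
  have hEA : (↑u⁻¹ : H →L[ℂ] H) * A = 1 := by rw [← hu]; exact u.inv_mul
  have hAEx : ∀ x : H, A ((↑u⁻¹ : H →L[ℂ] H) x) = x := by
    intro x
    have := congrArg (fun f : H →L[ℂ] H => f x) hAE
    simpa using this
  have hTs : ∀ r ∈ R, r * star T = star T * r := by
    intro r hr
    have h1 := (Set.mem_centralizer_iff.1 hT) (star r) (hR r hr)
    have h2 := congrArg star h1
    rw [star_mul, star_mul, star_star] at h2
    exact h2.symm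
  refine ⟨(↑u⁻¹ : H →L[ℂ] H), ?_, hAE, hEA, ?_, ?_, ?_, ?_⟩
  · rw [Set.mem_centralizer_iff]
    intro r hr
    have h1 := (Set.mem_centralizer_iff.1 hT) r hr
    have h2 : r * A = A * r := by
      rw [hA, mul_add, add_mul, ← mul_assoc, h1, mul_assoc, hTs r hr, mul_assoc]
      simp
    calc r * (↑u⁻¹ : H →L[ℂ] H) = ((↑u⁻¹ : H →L[ℂ] H) * A) * (r * (↑u⁻¹ : H →L[ℂ] H)) := by
          rw [hEA, one_mul]
      _ = (↑u⁻¹ : H →L[ℂ] H) * (A * r) * (↑u⁻¹ : H →L[ℂ] H) := by simp only [mul_assoc]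
      _ = (↑u⁻¹ : H →L[ℂ] H) * (r * A) * (↑u⁻¹ : H →L[ℂ] H) := by rw [h2]
      _ = (↑u⁻¹ : H →L[ℂ] H) * r * (A * (↑u⁻¹ : H →L[ℂ] H)) := by simp only [mul_assoc]
      _ = (↑u⁻¹ : H →L[ℂ] H) * r := by rw [hAE, mul_one]
  · have h1 : star (↑u⁻¹ : H →L[ℂ] H) * A = 1 := by
      have h2 := congrArg star hAE
      rw [star_mul, hA, RESx.saA, star_one] at h2
      exact h2
    exact left_inv_eq_right_inv h1 hAE
  · intro ξ
    have h1 := RESx.key T ε ((↑u⁻¹ : H →L[ℂ] H) ξ)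
    rw [← hA, hAEx] at h1
    rw [h1]
    positivity
  · apply ContinuousLinearMap.opNorm_le_bound _ zero_le_one
    intro x
    rw [one_mul, ContinuousLinearMap.smul_apply, norm_smul, Complex.norm_real, Real.norm_eq_abs,
      abs_of_pos hε]
    exact RESx.bd1 T ε x _ (hAEx x)
  · apply ContinuousLinearMap.opNorm_le_bound _ zero_le_one
    intro x
    rw [one_mul]
    exact RESx.bd3 T ε hε x _ (hAEx (T x))

/-- `ε (T T* + ε)⁻¹ → 1 - p` strongly as `ε → 0`, with `p` the projection onto the closure of the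
range of `T` (the two hypotheses on `p` say exactly this).
Proof: for `ξ` orthogonal to the range, `ε E ξ = ξ`; for `ξ = T ζ`, `‖ε E T ζ‖ ≤ sqrt ε ‖ζ‖`
(`η = E T ζ`, `ε ‖η‖² ≤ ‖T*η‖ ‖ζ‖ ≤ ‖ζ‖²`); then density, as `‖ε E‖ ≤ 1`.
(`X := ` rank one operator `⟪v, ·⟫ v` in `hX` shows that `range p` is in the closure of `range T`.) -/
theorem resolvent_lim (T p : H →L[ℂ] H) (hp : p * p = p) (hps : star p = p) (hpT : p * T = T)
    (hX : ∀ X : H →L[ℂ] H, X * T = 0 → X * p = 0) (ξ : H) (η : ℝ) (hη : 0 < η) :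
    ∃ ε₀ : ℝ, 0 < ε₀ ∧ ∀ ε : ℝ, 0 < ε → ε < ε₀ → ∀ E : H →L[ℂ] H,
      (T * star T + (ε : ℂ) • (1 : H →L[ℂ] H)) * E = 1 →
      E * (T * star T + (ε : ℂ) • (1 : H →L[ℂ] H)) = 1 →
      ‖(ε : ℂ) • E ξ - (ξ - p ξ)‖ < η := by
  -- `p ξ` is in the closure of the range of `T`
  have hcl : p ξ ∈ closure (Set.range T) := by
    set L : Submodule ℂ H := (LinearMap.range (T : H →ₗ[ℂ] H))ᗮ with hL
    have h1 : L.starProjection * T = 0 := by
      ext x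
      rw [ContinuousLinearMap.mul_apply, ContinuousLinearMap.zero_apply,
        Submodule.starProjection_apply_eq_zero_iff]
      exact Submodule.le_orthogonal_orthogonal _ ⟨x, rfl⟩
    have h2 := hX _ h1
    have h3 : L.starProjection (p ξ) = 0 := by
      have := congrArg (fun f : H →L[ℂ] H => f ξ) h2
      simpa using this
    rw [Submodule.starProjection_apply_eq_zero_iff, hL,
      Submodule.orthogonal_orthogonal_eq_closure] at h3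
    have h4 : p ξ ∈ ((LinearMap.range (T : H →ₗ[ℂ] H)).topologicalClosure : Set H) := h3
    rw [Submodule.topologicalClosure_coe] at h4
    exact h4
  obtain ⟨_, ⟨ζ, rfl⟩, hζ⟩ := Metric.mem_closure_iff.1 hcl (η / 2) (by positivity)
  rw [dist_eq_norm] at hζ
  refine ⟨(η / 2) ^ 2 / (‖ζ‖ ^ 2 + 1), by positivity, ?_⟩
  intro ε hε hlt E hAE hEA
  have hAEx : ∀ x : H, (T * star T + (ε : ℂ) • (1 : H →L[ℂ] H)) (E x) = x := by
    intro x
    have := congrArg (fun f : H →L[ℂ] H => f x) hAE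
    simpa using this
  have hEAx : ∀ x : H, E ((T * star T + (ε : ℂ) • (1 : H →L[ℂ] H)) x) = x := by
    intro x
    have := congrArg (fun f : H →L[ℂ] H => f x) hEA
    simpa using this
  -- the orthogonal part
  have hTp : star T * p = star T := by
    have h2 := congrArg star hpT
    rw [star_mul, hps] at h2
    exact h2
  have hv0 : (star T) (ξ - p ξ) = 0 := by
    rw [map_sub]
    have := congrArg (fun f : H →L[ℂ] H => f ξ) hTp
    simp only [ContinuousLinearMap.mul_apply] at this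
    rw [this, sub_self]
  have hv1 : (T * star T + (ε : ℂ) • (1 : H →L[ℂ] H)) (ξ - p ξ) = (ε : ℂ) • (ξ - p ξ) := by
    rw [ContinuousLinearMap.add_apply, ContinuousLinearMap.mul_apply, hv0, map_zero, zero_add,
      ContinuousLinearMap.smul_apply, ContinuousLinearMap.one_apply]
  have hv2 : (ε : ℂ) • E (ξ - p ξ) = ξ - p ξ := by
    rw [← map_smul, ← hv1]
    exact hEAx _
  have hdec : (ε : ℂ) • E ξ - (ξ - p ξ) =
      (ε : ℂ) • E (p ξ - T ζ) + (ε : ℂ) • E (T ζ) := by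
    have h1 : ξ = (ξ - p ξ) + ((p ξ - T ζ) + T ζ) := by abel
    have h2 : (ε : ℂ) • E ξ = (ε : ℂ) • E (ξ - p ξ) +
        ((ε : ℂ) • E (p ξ - T ζ) + (ε : ℂ) • E (T ζ)) := by
      conv_lhs => rw [h1]
      rw [map_add, map_add, smul_add, smul_add]
    rw [h2, hv2]
    abel
  have hn : ∀ x : H, ‖(ε : ℂ) • E x‖ = ε * ‖E x‖ := by
    intro x
    rw [norm_smul, Complex.norm_real, Real.norm_eq_abs, abs_of_pos hε]
  have hb1 : ‖(ε : ℂ) • E (p ξ - T ζ)‖ < η / 2 := by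
    rw [hn]
    exact lt_of_le_of_lt (RESx.bd1 T ε _ _ (hAEx _)) hζ
  have hb2 : ‖(ε : ℂ) • E (T ζ)‖ < η / 2 := by
    rw [hn]
    have h1 := RESx.bd4 T ε hε ζ _ (hAEx (T ζ))
    have h2 : ε * ‖ζ‖ ^ 2 < (η / 2) ^ 2 := by
      have h3 : ε * (‖ζ‖ ^ 2 + 1) < (η / 2) ^ 2 := (lt_div_iff₀ (by positivity)).1 hlt
      nlinarith
    exact lt_of_pow_lt_pow_left₀ 2 (by positivity) (lt_of_le_of_lt h1 h2)
  rw [hdec]
  calc ‖(ε : ℂ) • E (p ξ - T ζ) + (ε : ℂ) • E (T ζ)‖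
      ≤ ‖(ε : ℂ) • E (p ξ - T ζ)‖ + ‖(ε : ℂ) • E (T ζ)‖ := norm_add_le _ _
    _ < η / 2 + η / 2 := add_lt_add hb1 hb2
    _ = η := by ring

end Pool.Agent.Helper951_oc
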