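import Pool.Agent.Helper951_oc.TRACE

/-! Project OC (MP_3d0876_an), part RING: the Banach algebra `ℓ¹(G)`. -/

set_option linter.unusedSectionVars false

namespace Pool.Agent.Helper951_oc

open scoped ENNReal InnerProductSpace

variable {G : Type*} [Group G]

theorem cop_delta {p : ℝ≥0∞} [Fact (1 ≤ p)] (hp : 0 < p.toReal) (a : L1 G) (x : G) :
    (cop p hp a (sgl p 1) : G → ℂ) x = (a : G → ℂ) x := by
  classical
  rw [cop_coe, tsum_eq_single x]
  · rw [sgl_apply, if_pos (by group), mul_one]
  · intro b hb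
    rw [sgl_apply, if_neg, mul_zero]
    intro h
    exact hb (by rw [inv_mul_eq_one] at h; exact h)

/-- `ℓ¹(G)` as a type with the convolution product. -/
def A1 (G : Type*) : Type _ := L1 G

noncomputable instance : NormedAddCommGroup (A1 G) := inferInstanceAs (NormedAddCommGroup (L1 G))
noncomputable instance : NormedSpace ℂ (A1 G) := inferInstanceAs (NormedSpace ℂ (L1 G))
instance : CompleteSpace (A1 G) := inferInstanceAs (CompleteSpace (L1 G))

/-- The product. -/
noncomputable def mulA (a b : A1 G) : A1 G := cop 1 hp1 (G := G) a b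

noncomputable instance : NormedRing (A1 G) :=
  { (inferInstance : NormedAddCommGroup (A1 G)) with
    mul := mulA
    one := (sgl 1 1 : L1 G)
    left_distrib := fun a b c => map_add (cop 1 hp1 (G := G) a) b c
    right_distrib := fun a b c => by
      change cop 1 hp1 (G := G) (a + b) c = cop 1 hp1 (G := G) a c + cop 1 hp1 (G := G) b c
      exact congrArg (fun T : L1 G →L[ℂ] L1 G => T c) (cop_add (G := G) hp1 a b)
    zero_mul := fun a => by
      change cop 1 hp1 (G := G) (0 : L1 G) a = (0 : L1 G)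
      have := map_zero (copL (G := G) 1 hp1)
      rw [copL_apply] at this
      rw [this]; rfl
    mul_zero := fun a => map_zero (cop 1 hp1 (G := G) a)
    mul_assoc := fun a b c => by
      change cop 1 hp1 (G := G) (cop 1 hp1 (G := G) a b) c
        = cop 1 hp1 (G := G) a (cop 1 hp1 (G := G) b c)
      exact congrArg (fun T : L1 G →L[ℂ] L1 G => T c) (cop_cop (G := G) hp1 a b)
    one_mul := fun a => by
      change cop 1 hp1 (G := G) (sgl 1 1) a = a
      rw [cop_sgl]
      refine lp.ext (funext fun x => ?_)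
      rw [trans_apply]
      simp
    mul_one := fun a => by
      change cop 1 hp1 (G := G) a (sgl 1 1) = a
      refine lp.ext (funext fun x => ?_)
      exact cop_delta hp1 a x
    norm_mul_le := fun a b =>
      ((cop 1 hp1 (G := G) a).le_opNorm b).trans
        (mul_le_mul_of_nonneg_right (norm_cop_le (G := G) hp1 a) (norm_nonneg _)) }

noncomputable instance : Algebra ℂ (A1 G) :=
  Algebra.ofModule
    (fun c a b => by
      change cop 1 hp1 (G := G) (c • a) b = c • cop 1 hp1 (G := G) a b
      exact congrArg (fun T : L1 G →L[ℂ] L1 G => T b) (cop_smul (G := G) hp1 c a))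
    (fun c a b => map_smul (cop 1 hp1 (G := G) a) c b)

noncomputable instance : NormedAlgebra ℂ (A1 G) :=
  { (inferInstance : Algebra ℂ (A1 G)) with
    norm_smul_le := fun c a => norm_smul_le c a }

/-- The unit mass at `g` in the Banach algebra `ℓ¹(G)`. -/
noncomputable def dl (g : G) : A1 G := (sgl 1 g : L1 G)

theorem dl_mul (g h : G) : dl g * dl h = dl (g * h) := by
  change cop 1 hp1 (G := G) (sgl 1 g) (sgl 1 h) = sgl 1 (g * h)
  rw [cop_sgl, trans_sgl]

theorem dl_one : dl (1 : G) = 1 := rfl

theorem norm_dl_le (g : G) : ‖dl g‖ ≤ 1 := by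
  classical
  change ‖(sgl 1 g : L1 G)‖ ≤ 1
  unfold sgl
  rw [lp.norm_single (by norm_num)]
  simp

/-- The left regular representation of `ℓ¹(G)` on `ℓ²(G)`. -/
noncomputable def Lam (a : A1 G) : L2 G →L[ℂ] L2 G := lam (G := G) a

theorem Lam_mul (a b : A1 G) : Lam (a * b) = Lam a * Lam b := cop_cop (G := G) hp2 a b

theorem Lam_add (a b : A1 G) : Lam (a + b) = Lam a + Lam b := cop_add (G := G) hp2 a b

theorem Lam_smul (c : ℂ) (a : A1 G) : Lam (c • a) = c • Lam a := cop_smul (G := G) hp2 c a

theorem Lam_one : Lam (1 : A1 G) = 1 := by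
  change cop 2 hp2 (sgl 1 1 : L1 G) = 1
  rw [cop_sgl]
  ext f x
  simp [trans_apply]

/-- `Lam` as a bounded linear map. -/
noncomputable def LamL : A1 G →L[ℂ] (L2 G →L[ℂ] L2 G) :=
  LinearMap.mkContinuous { toFun := Lam, map_add' := Lam_add, map_smul' := Lam_smul } 1
    (fun a => by rw [one_mul]; exact norm_cop_le (G := G) hp2 a)

theorem LamL_apply (a : A1 G) : LamL a = Lam a := rfl

theorem Lam_sub (a b : A1 G) : Lam (a - b) = Lam a - Lam b := map_sub (LamL (G := G)) a b

theorem continuous_Lam : Continuous (Lam : A1 G → (L2 G →L[ℂ] L2 G)) := (LamL (G := G)).continuous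

theorem Lam_mem (a : A1 G) : Lam a ∈ Set.centralizer (rightT G) := lam_mem (G := G) a

theorem star_Lam_dl (g : G) : star (Lam (dl g)) = Lam (dl g⁻¹) := star_lam_sgl g

theorem Lam_inj {a : A1 G} (h : Lam a (sgl 2 1) = 0) : a = 0 := by
  change (a : L1 G) = (0 : L1 G)
  refine lp.ext (funext fun x => ?_)
  have h1 := lam_delta (G := G) a x
  have h2 : lam (G := G) a (sgl 2 1) = 0 := h
  rw [h2] at h1
  exact h1.symm

/-- The coefficient function of an element of `ℓ¹(G)`. -/
noncomputable def cf (a : A1 G) : G → ℂ := fun x => lp.evalCLM ℂ (fun _ : G => ℂ) 1 x a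

/-- The trace `a ↦ a(1)`. -/
theorem inner_Lam (a : A1 G) : ⟪(sgl 2 1 : L2 G), Lam a (sgl 2 1)⟫_ℂ = cf a 1 := by
  rw [inner_delta]
  exact lam_delta (G := G) a 1

end Pool.Agent.Helper951_oc
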