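import Pool.Agent.Helper951_oc.PR
import Pool.Agent.Helper951_oc.RES

/-! Project OC (MP_3d0876_an), part RL: the rank lemma in a tracial commutant. -/

namespace Pool.Agent.Helper951_oc

open scoped InnerProductSpace

variable {H : Type*} [NormedAddCommGroup H] [InnerProductSpace ℂ H] [CompleteSpace H]

/-- The centralizer of a self-adjoint set is self-adjoint. -/
private theorem star_mem_cent (R : Set (H →L[ℂ] H)) (hR : ∀ r ∈ R, star r ∈ R)
    (T : H →L[ℂ] H) (hT : T ∈ Set.centralizer R) : star T ∈ Set.centralizer R := by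
  rw [Set.mem_centralizer_iff] at hT ⊢
  intro r hr
  have h := hT (star r) (hR r hr)
  have h2 := congrArg star h
  simpa only [star_mul, star_star] using h2.symm

/-- Comparison lemma: `dim (range (C u)) ≤ dim u`.
Let `T = C u` and let `p` be the projection onto the closure of its range; `δ` a trace vector for the
commutant of `R`. Proof: `K = T T*`, `E = (K+ε)⁻¹`; `⟪δ, T T* E δ⟫ = ⟪δ, T* E T δ⟫` (trace, with
`S = T`, second factor `T* E`), and `T* E T = u (T* E T) u` has norm `≤ 1`, so the value is `≤ ‖u δ‖²`;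
`T T* E δ = δ - ε E δ → p δ` by `resolvent_lim`; `⟪δ, p δ⟫ = ‖p δ‖²`. -/
theorem compare (R : Set (H →L[ℂ] H)) (hR : ∀ r ∈ R, star r ∈ R) (δ : H)
    (htr : ∀ S ∈ Set.centralizer R, ∀ T ∈ Set.centralizer R, ⟪δ, S (T δ)⟫_ℂ = ⟪δ, T (S δ)⟫_ℂ)
    (C u p : H →L[ℂ] H) (hC : C ∈ Set.centralizer R) (hu : u ∈ Set.centralizer R)
    (huu : u * u = u) (hus : star u = u)
    (hp : p * p = p) (hps : star p = p) (hpT : p * (C * u) = C * u)
    (hX : ∀ X : H →L[ℂ] H, X * (C * u) = 0 → X * p = 0) :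
    ‖p δ‖ ^ 2 ≤ ‖u δ‖ ^ 2 := by
  have hTc : C * u ∈ Set.centralizer R := Set.mul_mem_centralizer hC hu
  have hTsc : star (C * u) ∈ Set.centralizer R := star_mem_cent R hR _ hTc
  have hTu : (C * u) * u = C * u := by rw [mul_assoc, huu]
  have huT : u * star (C * u) = star (C * u) := by
    have h := congrArg star hTu
    rw [star_mul, hus] at h
    exact h
  generalize hTdef : C * u = T at *
  -- the inner product `⟪δ, p δ⟫`
  have hpp : ⟪δ, p δ⟫_ℂ = ((‖p δ‖ ^ 2 : ℝ) : ℂ) := by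
    have h1 : p δ = p (p δ) := by
      have := congrArg (fun L : H →L[ℂ] H => L δ) hp
      simpa using this.symm
    have h2 : ⟪δ, p (p δ)⟫_ℂ = ⟪p δ, p δ⟫_ℂ := by
      have h3 := ContinuousLinearMap.adjoint_inner_left p (p δ) δ
      rw [← ContinuousLinearMap.star_eq_adjoint, hps] at h3
      exact h3.symm
    rw [h1, h2, inner_self_eq_norm_sq_to_K]
    have h4 : p (p δ) = p δ := h1.symm
    rw [h4]
    norm_cast
  have key : ∀ η : ℝ, 0 < η → ‖p δ‖ ^ 2 ≤ ‖u δ‖ ^ 2 + ‖δ‖ * η := by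
    intro η hη
    obtain ⟨ε₀, hε₀, hlim⟩ := resolvent_lim T p hp hps hpT hX δ η hη
    obtain ⟨E, hE, hE1, hE2, hEs, -, -, hEn⟩ := resolvent R hR T hTc (ε₀ / 2) (half_pos hε₀)
    have hl := hlim (ε₀ / 2) (half_pos hε₀) (half_lt_self hε₀) E hE1 hE2
    set ε : ℝ := ε₀ / 2 with hε
    -- trace identity
    have htr1 := htr T hTc (star T * E) (Set.mul_mem_centralizer hTsc hE)
    have hM : star T * E * T = u * (star T * E * T) * u := by
      have : u * (star T * E * T) * u = (u * star T) * E * (T * u) := by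
        simp only [mul_assoc]
      rw [this, huT, hTu]
    have hL : T ((star T * E) δ) = δ - (ε : ℂ) • E δ := by
      have h1 := congrArg (fun L : H →L[ℂ] H => L δ) hE1
      simp only [ContinuousLinearMap.mul_apply, ContinuousLinearMap.add_apply,
        ContinuousLinearMap.smul_apply, ContinuousLinearMap.one_apply] at h1
      rw [ContinuousLinearMap.mul_apply]
      exact eq_sub_of_add_eq h1
    have hRt : ⟪δ, (star T * E) (T δ)⟫_ℂ = ⟪u δ, (star T * E * T) (u δ)⟫_ℂ := by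
      have h1 : (star T * E) (T δ) = u ((star T * E * T) (u δ)) := by
        have h2 := congrArg (fun L : H →L[ℂ] H => L δ) hM
        simpa only [ContinuousLinearMap.mul_apply] using h2
      rw [h1]
      have h3 := ContinuousLinearMap.adjoint_inner_left u ((star T * E * T) (u δ)) δ
      rw [← ContinuousLinearMap.star_eq_adjoint, hus] at h3
      exact h3.symm
    rw [hL, hRt] at htr1
    have hb : ‖⟪u δ, (star T * E * T) (u δ)⟫_ℂ‖ ≤ ‖u δ‖ ^ 2 := by
      calc ‖⟪u δ, (star T * E * T) (u δ)⟫_ℂ‖ ≤ ‖u δ‖ * ‖(star T * E * T) (u δ)‖ :=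
            norm_inner_le_norm _ _
        _ ≤ ‖u δ‖ * (‖star T * E * T‖ * ‖u δ‖) := by
            gcongr
            exact ContinuousLinearMap.le_opNorm _ _
        _ ≤ ‖u δ‖ * (1 * ‖u δ‖) := by gcongr
        _ = ‖u δ‖ ^ 2 := by ring
    have hsplit : ⟪δ, p δ⟫_ℂ = ⟪δ, δ - (ε : ℂ) • E δ⟫_ℂ
        + ⟪δ, (ε : ℂ) • E δ - (δ - p δ)⟫_ℂ := by
      rw [← inner_add_right]
      congr 1
      abel
    have hc : ‖⟪δ, (ε : ℂ) • E δ - (δ - p δ)⟫_ℂ‖ ≤ ‖δ‖ * η :=
      (norm_inner_le_norm _ _).trans (by gcongr)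
    have hn : ‖((‖p δ‖ ^ 2 : ℝ) : ℂ)‖ ≤ ‖u δ‖ ^ 2 + ‖δ‖ * η := by
      rw [← hpp, hsplit, htr1]
      exact (norm_add_le _ _).trans (add_le_add hb hc)
    rw [Complex.norm_real, Real.norm_eq_abs, abs_of_nonneg (by positivity)] at hn
    exact hn
  refine le_of_forall_pos_le_add fun c hc => ?_
  have hδ : 0 < ‖δ‖ + 1 := by positivity
  have h := key (c / (‖δ‖ + 1)) (div_pos hc hδ)
  have h2 : ‖δ‖ * (c / (‖δ‖ + 1)) ≤ c := by
    rw [mul_div_assoc', div_le_iff₀ hδ]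
    nlinarith [norm_nonneg δ]
  linarith

/-- Rank lemma: `‖(A u C) δ‖² ≤ ‖A u C‖² ‖u δ‖²`.
Proof: `p` = projection onto closure of range of `C* u` (`range_proj`); `p C* u = C* u` gives
`u C p = u C`, so `A u C = A u C p`, and `‖(A u C) δ‖ = ‖(A u C)(p δ)‖ ≤ ‖A u C‖ ‖p δ‖`, and `compare`. -/
theorem rank_lemma (R : Set (H →L[ℂ] H)) (hR : ∀ r ∈ R, star r ∈ R) (δ : H)
    (htr : ∀ S ∈ Set.centralizer R, ∀ T ∈ Set.centralizer R, ⟪δ, S (T δ)⟫_ℂ = ⟪δ, T (S δ)⟫_ℂ)
    (A u C : H →L[ℂ] H) (hA : A ∈ Set.centralizer R) (hC : C ∈ Set.centralizer R)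
    (hu : u ∈ Set.centralizer R) (huu : u * u = u) (hus : star u = u) :
    ‖(A * u * C) δ‖ ^ 2 ≤ ‖A * u * C‖ ^ 2 * ‖u δ‖ ^ 2 := by
  have hCs : star C ∈ Set.centralizer R := star_mem_cent R hR C hC
  obtain ⟨p, -, hpp, hps, hpT, hX⟩ :=
    range_proj R hR (star C * u) (Set.mul_mem_centralizer hCs hu)
  have hcmp := compare R hR δ htr (star C) u p hCs hu huu hus hpp hps hpT hX
  have h1 : u * C * p = u * C := by
    have h := congrArg star hpT
    simpa only [star_mul, star_star, hus, hps] using h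
  have h2 : A * u * C * p = A * u * C := by
    have : A * u * C * p = A * (u * C * p) := by simp only [mul_assoc]
    rw [this, h1, mul_assoc]
  have h3 : (A * u * C) δ = (A * u * C) (p δ) := by
    have h := congrArg (fun L : H →L[ℂ] H => L δ) h2
    simpa only [ContinuousLinearMap.mul_apply] using h.symm
  have h4 : ‖(A * u * C) δ‖ ≤ ‖A * u * C‖ * ‖p δ‖ := by
    rw [h3]
    exact ContinuousLinearMap.le_opNorm _ _
  calc ‖(A * u * C) δ‖ ^ 2 ≤ (‖A * u * C‖ * ‖p δ‖) ^ 2 := by gcongr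
    _ = ‖A * u * C‖ ^ 2 * ‖p δ‖ ^ 2 := by ring
    _ ≤ ‖A * u * C‖ ^ 2 * ‖u δ‖ ^ 2 := by gcongr

end Pool.Agent.Helper951_oc
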