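import Pool.Agent.Helper951_oc.Base

/-! Project OC (MP_3d0876_an), part TRACE: right translations and the trace vector of `ℓ²(G)`. -/

set_option linter.unusedSectionVars false

namespace Pool.Agent.Helper951_oc

open scoped ENNReal InnerProductSpace

variable {G : Type*} [Group G]

theorem hp1 : 0 < (1 : ℝ≥0∞).toReal := by simp
theorem hp2 : 0 < (2 : ℝ≥0∞).toReal := by simp

/-- The left convolution operator of `a ∈ ℓ¹(G)` on `ℓ²(G)`. -/
noncomputable def lam (a : L1 G) : L2 G →L[ℂ] L2 G := cop 2 hp2 a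

/-- The set of right translations `ξ ↦ ξ (· g)` of `ℓ²(G)`. -/
def rightT (G : Type*) [Group G] : Set (L2 G →L[ℂ] L2 G) :=
  Set.range (fun g : G => trans 2 hp2 (Equiv.mulRight g))

theorem star_trans (e : G ≃ G) : star (trans 2 hp2 e) = trans 2 hp2 e.symm := by
  rw [ContinuousLinearMap.star_eq_adjoint]
  symm
  rw [ContinuousLinearMap.eq_adjoint_iff]
  intro x y
  rw [lp.inner_eq_tsum, lp.inner_eq_tsum]
  rw [← e.tsum_eq]
  refine tsum_congr fun i => ?_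
  rw [trans_apply, trans_apply, Equiv.symm_apply_apply]

theorem star_rightT : ∀ r ∈ rightT G, star r ∈ rightT G := by
  rintro _ ⟨g, rfl⟩
  refine ⟨g⁻¹, ?_⟩
  change trans 2 hp2 (Equiv.mulRight g⁻¹) = star (trans 2 hp2 (Equiv.mulRight g))
  rw [star_trans]
  congr 1
  ext x
  simp

theorem lam_mem (a : L1 G) : lam a ∈ Set.centralizer (rightT G) := by
  rw [Set.mem_centralizer_iff]
  rintro _ ⟨g, rfl⟩
  ext f x
  change (trans 2 hp2 (Equiv.mulRight g) (lam a f) : G → ℂ) x =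
    (lam a (trans 2 hp2 (Equiv.mulRight g) f) : G → ℂ) x
  rw [trans_apply]
  unfold lam
  rw [cop_coe, cop_coe]
  refine tsum_congr fun h => ?_
  rw [trans_apply, Equiv.coe_mulRight]
  simp only [mul_assoc]

theorem star_lam_sgl (g : G) : star (lam (sgl 1 g : L1 G)) = lam (sgl 1 g⁻¹) := by
  unfold lam
  rw [cop_sgl, cop_sgl, star_trans]
  congr 1
  ext x
  simp

theorem lam_delta (a : L1 G) (x : G) : (lam a (sgl 2 1) : G → ℂ) x = (a : G → ℂ) x := by
  classical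
  unfold lam
  rw [cop_coe, tsum_eq_single x]
  · rw [sgl_apply, inv_mul_cancel, if_pos rfl, mul_one]
  · intro g hg
    rw [sgl_apply, if_neg, mul_zero]
    intro h
    exact hg (inv_mul_eq_one.1 h)

theorem inner_delta (ξ : L2 G) : ⟪(sgl 2 1 : L2 G), ξ⟫_ℂ = (ξ : G → ℂ) 1 := by
  classical
  rw [lp.inner_eq_tsum, tsum_eq_single (1 : G)]
  · rw [sgl_apply, if_pos rfl]
    simp
  · intro g hg
    rw [sgl_apply, if_neg hg, inner_zero_left]

theorem norm_delta : ‖(sgl 2 1 : L2 G)‖ = 1 := by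
  classical
  have h1 := congrArg (RCLike.re (K := ℂ)) (inner_delta (sgl 2 1 : L2 G))
  rw [inner_self_eq_norm_sq, sgl_apply, if_pos rfl] at h1
  have h2 : ‖(sgl 2 1 : L2 G)‖ ^ 2 = 1 := by simpa using h1
  have h3 := norm_nonneg (sgl 2 1 : L2 G)
  nlinarith

theorem trb_sgl_eq (x : G) : (sgl 2 x : L2 G) = trans 2 hp2 (Equiv.mulRight x⁻¹) (sgl 2 1) := by
  classical
  ext y
  rw [trans_apply, sgl_apply, sgl_apply]
  simp only [Equiv.coe_mulRight, mul_inv_eq_one]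

theorem trb_inner_sgl (x : G) (ξ : L2 G) : ⟪(sgl 2 x : L2 G), ξ⟫_ℂ = (ξ : G → ℂ) x := by
  have h1 : trans 2 hp2 (Equiv.mulRight x⁻¹) = star (trans 2 hp2 (Equiv.mulRight x) : L2 G →L[ℂ] L2 G) := by
    rw [star_trans]
    congr 1
    ext y
    simp
  rw [trb_sgl_eq, h1, ContinuousLinearMap.star_eq_adjoint, ContinuousLinearMap.adjoint_inner_left, inner_delta,
    trans_apply]
  simp

theorem trb_star (S : L2 G →L[ℂ] L2 G) (hS : S ∈ Set.centralizer (rightT G)) (x : G) :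
    ((star S) (sgl 2 1) : G → ℂ) x = (starRingEnd ℂ) ((S (sgl 2 1) : G → ℂ) x⁻¹) := by
  have h1 := hS (trans 2 hp2 (Equiv.mulRight x⁻¹)) ⟨x⁻¹, rfl⟩
  have h2 : S (sgl 2 x) = trans 2 hp2 (Equiv.mulRight x⁻¹) (S (sgl 2 1)) := by
    rw [trb_sgl_eq]
    exact (congrArg (fun T : L2 G →L[ℂ] L2 G => T (sgl 2 1)) h1).symm
  rw [← trb_inner_sgl, ContinuousLinearMap.star_eq_adjoint, ContinuousLinearMap.adjoint_inner_right,
    ← inner_conj_symm, inner_delta, h2, trans_apply]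
  simp

theorem trb_formula (S T : L2 G →L[ℂ] L2 G) (hS : S ∈ Set.centralizer (rightT G)) :
    ⟪(sgl 2 1 : L2 G), S (T (sgl 2 1))⟫_ℂ =
      ∑' x, (S (sgl 2 1) : G → ℂ) x⁻¹ * (T (sgl 2 1) : G → ℂ) x := by
  rw [← ContinuousLinearMap.adjoint_inner_left, ← ContinuousLinearMap.star_eq_adjoint, lp.inner_eq_tsum]
  apply tsum_congr
  intro x
  rw [trb_star S hS x]
  simp [mul_comm]

/-- Trace property: for `S, T` commuting with right translations, `τ(ST) = τ(TS)`.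
Proof: `⟪δ, S T δ⟫ = ⟪S* δ, T δ⟫ = ∑ x, conj ((S* δ) x) (T δ) x` and
`(S* δ) x = ⟪δ_x, S* δ⟫ = ⟪S δ_x, δ⟫ = conj ((S δ_x) 1)`, and `δ_x` is the right translate of `δ`
(`δ_x = trans (mulRight x⁻¹) δ`), so `(S δ_x) 1 = (S δ) x⁻¹`. Hence
`⟪δ, S T δ⟫ = ∑ x, (S δ) x⁻¹ (T δ) x`, symmetric in `S, T` by `x ↦ x⁻¹`. -/
theorem trace_prop : ∀ S ∈ Set.centralizer (rightT G), ∀ T ∈ Set.centralizer (rightT G),
    ⟪(sgl 2 1 : L2 G), S (T (sgl 2 1))⟫_ℂ = ⟪(sgl 2 1 : L2 G), T (S (sgl 2 1))⟫_ℂ := by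
  intro S hS T hT
  rw [trb_formula S T hS, trb_formula T S hT, ← (Equiv.inv G).tsum_eq]
  apply tsum_congr
  intro x
  simp only [Equiv.inv_apply, inv_inv]
  rw [mul_comm]

end Pool.Agent.Helper951_oc
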